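import Pool.Agent.N824.C2.Main2

/-!
# Curvature of immersions at the level of 2-jets
-/

set_option autoImplicit false
set_option maxSynthPendingDepth 3

open Set Filter Topology Metric Function MeasureTheory
open scoped Manifold ContDiff Convolution InnerProductSpace

set_option linter.unusedSectionVars false

noncomputable section

namespace Pool.Agent.N824.C2

section

variable {V W : Type} [NormedAddCommGroup V] [InnerProductSpace ℝ V] [FiniteDimensional ℝ V]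
  [NormedAddCommGroup W] [InnerProductSpace ℝ W] [FiniteDimensional ℝ W]

/-- the inverse of the metric induced by `L` -/
def invMetric (L : V →L[ℝ] W) : V →L[ℝ] V :=
  ContinuousLinearMap.inverse ((ContinuousLinearMap.adjoint L).comp L)

/-- the second fundamental form: the component of `Q u v` orthogonal to the image of `L` -/
def II (L : V →L[ℝ] W) (Q : V →L[ℝ] V →L[ℝ] W) (u v : V) : W :=
  Q u v - L (invMetric L (ContinuousLinearMap.adjoint L (Q u v)))

/-- the numerator of the sectional curvature, by Gauss's equation -/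
def secNum (L : V →L[ℝ] W) (Q : V →L[ℝ] V →L[ℝ] W) (u v : V) : ℝ :=
  ⟪II L Q u u, II L Q v v⟫_ℝ - ‖II L Q u v‖ ^ 2

/-- the scalar curvature, by Gauss's equation; `e` is an orthonormal basis of `V` -/
def scalCurv {ι : Type} [Fintype ι] (e : ι → V) (L : V →L[ℝ] W)
    (Q : V →L[ℝ] V →L[ℝ] W) : ℝ :=
  ‖∑ i, II L Q (invMetric L (e i)) (e i)‖ ^ 2 -
    ∑ i, ∑ j, ⟪II L Q (invMetric L (e i)) (invMetric L (e j)), II L Q (e i) (e j)⟫_ℝ

theorem invMetric_cont {L : V →L[ℝ] W} (hL : Injective L) :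
    ContinuousAt (fun L : V →L[ℝ] W => invMetric L) L := by
  have hinj : Injective ((ContinuousLinearMap.adjoint L).comp L) := by
    refine (injective_iff_map_eq_zero _).2 fun v hv => ?_
    have h1 : ⟪(ContinuousLinearMap.adjoint L).comp L v, v⟫_ℝ = ‖L v‖ ^ 2 := by
      rw [ContinuousLinearMap.comp_apply, ContinuousLinearMap.adjoint_inner_left,
        real_inner_self_eq_norm_sq]
    rw [hv, inner_zero_left] at h1
    have h2 : L v = 0 := by
      have : ‖L v‖ = 0 := by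
        have := h1.symm
        exact pow_eq_zero_iff (two_ne_zero) |>.1 this
      exact norm_eq_zero.1 this
    exact hL (h2.trans (map_zero L).symm)
  obtain ⟨e, he⟩ : ∃ e : V ≃L[ℝ] V, (e : V →L[ℝ] V) = (ContinuousLinearMap.adjoint L).comp L := by
    have hinj' : Injective (((ContinuousLinearMap.adjoint L).comp L : V →L[ℝ] V) : V →ₗ[ℝ] V) :=
      hinj
    refine ⟨(LinearEquiv.ofInjectiveEndo _ hinj').toContinuousLinearEquiv, ?_⟩
    ext v
    rfl
  have h1 : ContinuousAt (ContinuousLinearMap.inverse : (V →L[ℝ] V) → V →L[ℝ] V)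
      ((ContinuousLinearMap.adjoint L).comp L) := by
    rw [← he]
    exact (contDiffAt_map_inverse (n := 0) e).continuousAt
  have h2 : ContinuousAt (fun L : V →L[ℝ] W => (ContinuousLinearMap.adjoint L).comp L) L := by
    have h3 : Continuous fun L : V →L[ℝ] W => (ContinuousLinearMap.adjoint L) :=
      (ContinuousLinearMap.adjoint (𝕜 := ℝ) (E := V) (F := W)).continuous
    exact (h3.clm_comp continuous_id).continuousAt
  exact ContinuousAt.comp (f := fun L : V →L[ℝ] W => (ContinuousLinearMap.adjoint L).comp L)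
    (g := ContinuousLinearMap.inverse) h1 h2

/-- continuity of the second fundamental form -/
theorem II_cont {α : Type} [TopologicalSpace α] {a : α} {l : α → V →L[ℝ] W}
    {q : α → V →L[ℝ] V →L[ℝ] W} {u v : α → V} (hl : ContinuousAt l a) (hq : ContinuousAt q a)
    (hu : ContinuousAt u a) (hv : ContinuousAt v a) (hL : Injective (l a)) :
    ContinuousAt (fun x => II (l x) (q x) (u x) (v x)) a := by
  have h1 : ContinuousAt (fun x => q x (u x) (v x)) a := (hq.clm_apply hu).clm_apply hv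
  have h2 : ContinuousAt (fun x => invMetric (l x)) a :=
    ContinuousAt.comp (f := l) (g := invMetric) (invMetric_cont hL) hl
  have h3 : ContinuousAt (fun x => ContinuousLinearMap.adjoint (l x)) a := by
    have h3 : Continuous fun L : V →L[ℝ] W => (ContinuousLinearMap.adjoint L) :=
      (ContinuousLinearMap.adjoint (𝕜 := ℝ) (E := V) (F := W)).continuous
    exact h3.continuousAt.comp hl
  exact h1.sub (hl.clm_apply (h2.clm_apply (h3.clm_apply h1)))

theorem secNum_cont {α : Type} [TopologicalSpace α] {a : α} {l : α → V →L[ℝ] W}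
    {q : α → V →L[ℝ] V →L[ℝ] W} {u v : α → V} (hl : ContinuousAt l a) (hq : ContinuousAt q a)
    (hu : ContinuousAt u a) (hv : ContinuousAt v a) (hL : Injective (l a)) :
    ContinuousAt (fun x => secNum (l x) (q x) (u x) (v x)) a :=
  (ContinuousAt.inner (𝕜 := ℝ) (II_cont hl hq hu hu hL) (II_cont hl hq hv hv hL)).sub
    ((II_cont hl hq hu hv hL).norm.pow 2)

theorem scalCurv_cont {ι : Type} [Fintype ι] (e : ι → V) {α : Type} [TopologicalSpace α] {a : α}
    {l : α → V →L[ℝ] W} {q : α → V →L[ℝ] V →L[ℝ] W} (hl : ContinuousAt l a)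
    (hq : ContinuousAt q a) (hL : Injective (l a)) :
    ContinuousAt (fun x => scalCurv e (l x) (q x)) a := by
  have h2 : ContinuousAt (fun x => invMetric (l x)) a :=
    ContinuousAt.comp (f := l) (g := invMetric) (invMetric_cont hL) hl
  have h3 : ∀ i, ContinuousAt (fun x => invMetric (l x) (e i)) a := fun i =>
    h2.clm_apply continuousAt_const
  unfold scalCurv
  refine ContinuousAt.sub (ContinuousAt.pow (ContinuousAt.norm ?_) 2) ?_
  · exact tendsto_finsetSum _ fun i _ => II_cont hl hq (h3 i) continuousAt_const hL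
  · exact tendsto_finsetSum _ fun i _ => tendsto_finsetSum _ fun j _ =>
      ContinuousAt.inner (𝕜 := ℝ) (II_cont hl hq (h3 i) (h3 j) hL)
        (II_cont hl hq continuousAt_const continuousAt_const hL)

/-- positive sectional curvature, at the level of 2-jets -/
def PosSec (L : V →L[ℝ] W) (Q : V →L[ℝ] V →L[ℝ] W) : Prop :=
  Injective L ∧ ∀ u v : V, ‖u‖ = 1 → ‖v‖ = 1 → ⟪u, v⟫_ℝ = 0 → 0 < secNum L Q u v

/-- negative sectional curvature, at the level of 2-jets -/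
def NegSec (L : V →L[ℝ] W) (Q : V →L[ℝ] V →L[ℝ] W) : Prop :=
  Injective L ∧ ∀ u v : V, ‖u‖ = 1 → ‖v‖ = 1 → ⟪u, v⟫_ℝ = 0 → secNum L Q u v < 0

/-- positive scalar curvature, at the level of 2-jets -/
def PosScal {ι : Type} [Fintype ι] (e : ι → V) (L : V →L[ℝ] W) (Q : V →L[ℝ] V →L[ℝ] W) :
    Prop :=
  Injective L ∧ 0 < scalCurv e L Q

theorem inj_ev {L : V →L[ℝ] W} {Q : V →L[ℝ] V →L[ℝ] W} (hL : Injective L) :
    ∀ᶠ z : (V →L[ℝ] W) × (V →L[ℝ] V →L[ℝ] W) in 𝓝 (L, Q), Injective z.1 := by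
  have h1 : ∀ᶠ L' : V →L[ℝ] W in 𝓝 L, Injective L' :=
    (ContinuousLinearMap.isOpen_injective (𝕜 := ℝ)).mem_nhds hL
  exact (continuous_fst.tendsto (L, Q)).eventually h1

theorem ev_of {P : (V →L[ℝ] W) → (V →L[ℝ] V →L[ℝ] W) → Prop} {L : V →L[ℝ] W}
    {Q : V →L[ℝ] V →L[ℝ] W} (h : ∀ᶠ z : (V →L[ℝ] W) × (V →L[ℝ] V →L[ℝ] W) in 𝓝 (L, Q),
      P z.1 z.2) : ∃ b > 0, ∀ L' Q', ‖L' - L‖ ≤ b → ‖Q' - Q‖ ≤ b → P L' Q' := by
  obtain ⟨b, hb, h1⟩ := Metric.mem_nhds_iff.1 h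
  refine ⟨b / 2, by positivity, fun L' Q' h2 h3 => ?_⟩
  have h4 : (L', Q') ∈ ball (L, Q) b := by
    rw [mem_ball, dist_eq_norm, Prod.mk_sub_mk, Prod.norm_mk, max_lt_iff]
    constructor <;> linarith
  exact h1 h4

theorem posScal_open {ι : Type} [Fintype ι] (e : ι → V) {L : V →L[ℝ] W}
    {Q : V →L[ℝ] V →L[ℝ] W} (h : PosScal e L Q) :
    ∃ b > 0, ∀ L' Q', ‖L' - L‖ ≤ b → ‖Q' - Q‖ ≤ b → PosScal e L' Q' := by
  refine ev_of ?_
  have h1 : ContinuousAt (fun z : (V →L[ℝ] W) × (V →L[ℝ] V →L[ℝ] W) => scalCurv e z.1 z.2)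
      (L, Q) := scalCurv_cont e continuousAt_fst continuousAt_snd h.1
  exact (inj_ev h.1).and (h1.eventually_const_lt h.2)

theorem compact_on : IsCompact {z : V × V | ‖z.1‖ = 1 ∧ ‖z.2‖ = 1 ∧ ⟪z.1, z.2⟫_ℝ = 0} := by
  have h1 : {z : V × V | ‖z.1‖ = 1 ∧ ‖z.2‖ = 1 ∧ ⟪z.1, z.2⟫_ℝ = 0} ⊆ closedBall 0 1 := by
    rintro ⟨u, v⟩ ⟨h1, h2, -⟩
    rw [mem_closedBall_zero_iff, Prod.norm_mk, max_le_iff]
    exact ⟨h1.le, h2.le⟩
  refine (isCompact_closedBall (0 : V × V) 1).of_isClosed_subset ?_ h1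
  refine IsClosed.inter (isClosed_eq (by fun_prop) (by fun_prop))
    (IsClosed.inter (isClosed_eq (by fun_prop) (by fun_prop))
      (isClosed_eq (by fun_prop) (by fun_prop)))

theorem posSec_open {L : V →L[ℝ] W} {Q : V →L[ℝ] V →L[ℝ] W} (h : PosSec L Q) :
    ∃ b > 0, ∀ L' Q', ‖L' - L‖ ≤ b → ‖Q' - Q‖ ≤ b → PosSec L' Q' := by
  refine ev_of ?_
  have h1 : ∀ᶠ z : (V →L[ℝ] W) × (V →L[ℝ] V →L[ℝ] W) in 𝓝 (L, Q),
      ∀ y ∈ {z : V × V | ‖z.1‖ = 1 ∧ ‖z.2‖ = 1 ∧ ⟪z.1, z.2⟫_ℝ = 0},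
        0 < secNum z.1 z.2 y.1 y.2 := by
    refine compact_on.eventually_forall_of_forall_eventually fun y hy => ?_
    have h2 : ContinuousAt (fun z : ((V →L[ℝ] W) × (V →L[ℝ] V →L[ℝ] W)) × (V × V) =>
        secNum z.1.1 z.1.2 z.2.1 z.2.2) ((L, Q), y) :=
      secNum_cont (by fun_prop) (by fun_prop) (by fun_prop) (by fun_prop) h.1
    exact h2.eventually_const_lt (h.2 y.1 y.2 hy.1 hy.2.1 hy.2.2)
  filter_upwards [inj_ev h.1, h1] with z hz hz1
  exact ⟨hz, fun u v hu hv huv => hz1 (u, v) ⟨hu, hv, huv⟩⟩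

theorem negSec_open {L : V →L[ℝ] W} {Q : V →L[ℝ] V →L[ℝ] W} (h : NegSec L Q) :
    ∃ b > 0, ∀ L' Q', ‖L' - L‖ ≤ b → ‖Q' - Q‖ ≤ b → NegSec L' Q' := by
  refine ev_of ?_
  have h1 : ∀ᶠ z : (V →L[ℝ] W) × (V →L[ℝ] V →L[ℝ] W) in 𝓝 (L, Q),
      ∀ y ∈ {z : V × V | ‖z.1‖ = 1 ∧ ‖z.2‖ = 1 ∧ ⟪z.1, z.2⟫_ℝ = 0},
        secNum z.1 z.2 y.1 y.2 < 0 := by
    refine compact_on.eventually_forall_of_forall_eventually fun y hy => ?_
    have h2 : ContinuousAt (fun z : ((V →L[ℝ] W) × (V →L[ℝ] V →L[ℝ] W)) × (V × V) =>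
        secNum z.1.1 z.1.2 z.2.1 z.2.2) ((L, Q), y) :=
      secNum_cont (by fun_prop) (by fun_prop) (by fun_prop) (by fun_prop) h.1
    exact h2.eventually_lt_const (h.2 y.1 y.2 hy.1 hy.2.1 hy.2.2)
  filter_upwards [inj_ev h.1, h1] with z hz hz1
  exact ⟨hz, fun u v hu hv huv => hz1 (u, v) ⟨hu, hv, huv⟩⟩

end

end Pool.Agent.N824.C2
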