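import Pool.Agent.N824.C2.CurvR

/-!
# Scalar curvature of conformal metrics at the level of 2-jets
-/

set_option autoImplicit false
set_option maxSynthPendingDepth 3

open Set Filter Topology Metric Function MeasureTheory
open scoped Manifold ContDiff Convolution InnerProductSpace

set_option linter.unusedSectionVars false

noncomputable section

namespace Pool.Agent.N824.C2

section

variable {V W : Type} [NormedAddCommGroup V] [InnerProductSpace ℝ V] [FiniteDimensional ℝ V]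
  [NormedAddCommGroup W] [InnerProductSpace ℝ W] [FiniteDimensional ℝ W]

/-- the first component of `L` -/
def fstL (L : V →L[ℝ] W × ℝ) : V →L[ℝ] W := (ContinuousLinearMap.fst ℝ W ℝ).comp L

/-- the first component of `Q` -/
def fstQ (Q : V →L[ℝ] V →L[ℝ] W × ℝ) : V →L[ℝ] V →L[ℝ] W :=
  (ContinuousLinearMap.compL ℝ V (W × ℝ) W (ContinuousLinearMap.fst ℝ W ℝ)).comp Q

/-- the Hessian of the second component, for the metric induced by the first component -/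
def hessSnd (L : V →L[ℝ] W × ℝ) (Q : V →L[ℝ] V →L[ℝ] W × ℝ) (u v : V) : ℝ :=
  (Q u v).2 - (L (invMetric (fstL L) (ContinuousLinearMap.adjoint (fstL L) (Q u v).1))).2

/-- `s - 2 (n - 1) Δ v - (n - 1) (n - 2) |dv|²` for `n = 4` -/
def confScal {ι : Type} [Fintype ι] (e : ι → V) (L : V →L[ℝ] W × ℝ)
    (Q : V →L[ℝ] V →L[ℝ] W × ℝ) : ℝ :=
  scalCurv e (fstL L) (fstQ Q) - 6 * ∑ i, hessSnd L Q (invMetric (fstL L) (e i)) (e i) -
    6 * ∑ i, (L (invMetric (fstL L) (e i))).2 * (L (e i)).2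

/-- positive scalar curvature of the conformal metric -/
def PosConf {ι : Type} [Fintype ι] (e : ι → V) (L : V →L[ℝ] W × ℝ)
    (Q : V →L[ℝ] V →L[ℝ] W × ℝ) : Prop :=
  Injective (fstL L) ∧ 0 < confScal e L Q

theorem fstL_cont : Continuous (fstL : (V →L[ℝ] W × ℝ) → V →L[ℝ] W) :=
  continuous_const.clm_comp continuous_id

theorem fstQ_cont : Continuous (fstQ : (V →L[ℝ] V →L[ℝ] W × ℝ) → V →L[ℝ] V →L[ℝ] W) :=
  continuous_const.clm_comp continuous_id

theorem confScal_cont {ι : Type} [Fintype ι] (e : ι → V) {L : V →L[ℝ] W × ℝ}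
    {Q : V →L[ℝ] V →L[ℝ] W × ℝ} (hL : Injective (fstL L)) :
    ContinuousAt (fun z : (V →L[ℝ] W × ℝ) × (V →L[ℝ] V →L[ℝ] W × ℝ) => confScal e z.1 z.2)
      (L, Q) := by
  have hl : ContinuousAt (fun z : (V →L[ℝ] W × ℝ) × (V →L[ℝ] V →L[ℝ] W × ℝ) => z.1) (L, Q) :=
    continuousAt_fst
  have hq : ContinuousAt (fun z : (V →L[ℝ] W × ℝ) × (V →L[ℝ] V →L[ℝ] W × ℝ) => z.2) (L, Q) :=
    continuousAt_snd
  have hl1 : ContinuousAt (fun z : (V →L[ℝ] W × ℝ) × (V →L[ℝ] V →L[ℝ] W × ℝ) => fstL z.1)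
      (L, Q) := fstL_cont.continuousAt.comp hl
  have hq1 : ContinuousAt (fun z : (V →L[ℝ] W × ℝ) × (V →L[ℝ] V →L[ℝ] W × ℝ) => fstQ z.2)
      (L, Q) := fstQ_cont.continuousAt.comp hq
  have h2 : ContinuousAt (fun z : (V →L[ℝ] W × ℝ) × (V →L[ℝ] V →L[ℝ] W × ℝ) =>
      invMetric (fstL z.1)) (L, Q) :=
    ContinuousAt.comp (f := fun z : (V →L[ℝ] W × ℝ) × (V →L[ℝ] V →L[ℝ] W × ℝ) => fstL z.1)
      (g := invMetric) (invMetric_cont hL) hl1
  have h3 : ContinuousAt (fun z : (V →L[ℝ] W × ℝ) × (V →L[ℝ] V →L[ℝ] W × ℝ) =>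
      ContinuousLinearMap.adjoint (fstL z.1)) (L, Q) := by
    have h3 : Continuous fun L : V →L[ℝ] W => (ContinuousLinearMap.adjoint L) :=
      (ContinuousLinearMap.adjoint (𝕜 := ℝ) (E := V) (F := W)).continuous
    exact h3.continuousAt.comp hl1
  have h4 : ∀ i, ContinuousAt (fun z : (V →L[ℝ] W × ℝ) × (V →L[ℝ] V →L[ℝ] W × ℝ) =>
      invMetric (fstL z.1) (e i)) (L, Q) := fun i => h2.clm_apply continuousAt_const
  unfold confScal
  refine ContinuousAt.sub (ContinuousAt.sub (scalCurv_cont e hl1 hq1 hL)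
    (continuousAt_const.mul ?_)) (continuousAt_const.mul ?_)
  · refine tendsto_finsetSum _ fun i _ => ?_
    have h5 : ContinuousAt (fun z : (V →L[ℝ] W × ℝ) × (V →L[ℝ] V →L[ℝ] W × ℝ) =>
        z.2 (invMetric (fstL z.1) (e i)) (e i)) (L, Q) :=
      (hq.clm_apply (h4 i)).clm_apply continuousAt_const
    exact h5.snd.sub (hl.clm_apply (h2.clm_apply (h3.clm_apply h5.fst))).snd
  · exact tendsto_finsetSum _ fun i _ => (hl.clm_apply (h4 i)).snd.mul
      (hl.clm_apply continuousAt_const).snd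

theorem posConf_open {ι : Type} [Fintype ι] (e : ι → V) {L : V →L[ℝ] W × ℝ}
    {Q : V →L[ℝ] V →L[ℝ] W × ℝ} (h : PosConf e L Q) :
    ∃ b > 0, ∀ L' Q', ‖L' - L‖ ≤ b → ‖Q' - Q‖ ≤ b → PosConf e L' Q' := by
  have h0 : ∀ᶠ z : (V →L[ℝ] W × ℝ) × (V →L[ℝ] V →L[ℝ] W × ℝ) in 𝓝 (L, Q),
      PosConf e z.1 z.2 := by
    have h1 : ∀ᶠ z : (V →L[ℝ] W × ℝ) × (V →L[ℝ] V →L[ℝ] W × ℝ) in 𝓝 (L, Q),
        Injective (fstL z.1) := by
      have h2 : ∀ᶠ L' : V →L[ℝ] W in 𝓝 (fstL L), Injective L' :=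
        (ContinuousLinearMap.isOpen_injective (𝕜 := ℝ)).mem_nhds h.1
      exact ((fstL_cont.comp continuous_fst).tendsto (L, Q)).eventually h2
    exact h1.and ((confScal_cont e h.1).eventually_const_lt h.2)
  obtain ⟨b, hb, h1⟩ := Metric.mem_nhds_iff.1 h0
  refine ⟨b / 2, by positivity, fun L' Q' h2 h3 => ?_⟩
  have h4 : (L', Q') ∈ ball (L, Q) b := by
    rw [mem_ball, dist_eq_norm, Prod.mk_sub_mk, Prod.norm_mk, max_lt_iff]
    constructor <;> linarith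
  exact h1 h4

end

end Pool.Agent.N824.C2
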