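import Pool.Agent.N824.C2.CurvR

/-!
# Morse functions with restricted indices at the level of 2-jets
-/

set_option autoImplicit false
set_option maxSynthPendingDepth 3

open Set Filter Topology Metric Function MeasureTheory
open scoped Manifold ContDiff Convolution InnerProductSpace

set_option linter.unusedSectionVars false

noncomputable section

namespace Pool.Agent.N824.C2

section

variable {V : Type} [NormedAddCommGroup V] [InnerProductSpace ℝ V] [FiniteDimensional ℝ V]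

/-- `Q` is nondegenerate of index `k`, in dimension `n`: there are a subspace of dimension `k` on
which it is negative definite and a subspace of dimension `n - k` on which it is positive definite -/
def HasIndex (n k : ℕ) (Q : V →L[ℝ] V →L[ℝ] ℝ) : Prop :=
  (∃ H : Submodule ℝ V, Module.finrank ℝ H = k ∧ ∀ v ∈ H, v ≠ 0 → Q v v < 0) ∧
    ∃ H : Submodule ℝ V, Module.finrank ℝ H = n - k ∧ ∀ v ∈ H, v ≠ 0 → 0 < Q v v

/-- no critical point, or a nondegenerate critical point with index in `I` -/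
def MorseJet (n : ℕ) (I : Set ℕ) (L : V →L[ℝ] ℝ) (Q : V →L[ℝ] V →L[ℝ] ℝ) : Prop :=
  L = 0 → ∃ k ∈ I, HasIndex n k Q

theorem def_ev (H : Submodule ℝ V) {Q : V →L[ℝ] V →L[ℝ] ℝ} (h : ∀ v ∈ H, v ≠ 0 → 0 < Q v v) :
    ∀ᶠ Q' : V →L[ℝ] V →L[ℝ] ℝ in 𝓝 Q, ∀ v ∈ H, v ≠ 0 → 0 < Q' v v := by
  have hS : IsCompact {v : V | ‖v‖ = 1 ∧ v ∈ H} := by
    have h1 : {v : V | ‖v‖ = 1 ∧ v ∈ H} = {v : V | ‖v‖ = 1} ∩ (H : Set V) := rfl
    rw [h1]
    exact compact_unit.inter_right H.closed_of_finiteDimensional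
  have h1 : ∀ᶠ Q' : V →L[ℝ] V →L[ℝ] ℝ in 𝓝 Q, ∀ y ∈ {v : V | ‖v‖ = 1 ∧ v ∈ H}, 0 < Q' y y := by
    refine hS.eventually_forall_of_forall_eventually fun y hy => ?_
    have h2 : ContinuousAt (fun z : (V →L[ℝ] V →L[ℝ] ℝ) × V => z.1 z.2 z.2) (Q, y) := by
      fun_prop
    have hy0 : y ≠ 0 := by
      rintro rfl
      have := hy.1
      rw [norm_zero] at this
      exact zero_ne_one this
    exact h2.eventually_const_lt (h y hy.2 hy0)
  filter_upwards [h1] with Q' hQ' v hv hv0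
  have hn : 0 < ‖v‖ := norm_pos_iff.2 hv0
  obtain ⟨u, hu⟩ : ∃ u : V, u = ‖v‖⁻¹ • v := ⟨_, rfl⟩
  have hu1 : ‖u‖ = 1 := by
    rw [hu, norm_smul, norm_inv, norm_norm]
    exact inv_mul_cancel₀ hn.ne'
  have hv' : v = ‖v‖ • u := by
    rw [hu, smul_smul, mul_inv_cancel₀ hn.ne', one_smul]
  have huH : u ∈ H := by
    rw [hu]
    exact H.smul_mem _ hv
  have h3 := hQ' u ⟨hu1, huH⟩
  rw [hv', map_smul, map_smul, smul_apply, smul_eq_mul, smul_eq_mul]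
  positivity

theorem def_ev' (H : Submodule ℝ V) {Q : V →L[ℝ] V →L[ℝ] ℝ} (h : ∀ v ∈ H, v ≠ 0 → Q v v < 0) :
    ∀ᶠ Q' : V →L[ℝ] V →L[ℝ] ℝ in 𝓝 Q, ∀ v ∈ H, v ≠ 0 → Q' v v < 0 := by
  have h1 := def_ev H (Q := -Q) (fun v hv hv0 => by
    have := h v hv hv0
    rw [neg_apply, neg_apply]
    linarith)
  have h2 : Tendsto (fun Q' : V →L[ℝ] V →L[ℝ] ℝ => -Q') (𝓝 Q) (𝓝 (-Q)) :=
    continuous_neg.tendsto Q
  filter_upwards [h2.eventually h1] with Q' hQ' v hv hv0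
  have := hQ' v hv hv0
  rw [neg_apply, neg_apply] at this
  linarith

theorem hasIndex_ev {n k : ℕ} {Q : V →L[ℝ] V →L[ℝ] ℝ} (h : HasIndex n k Q) :
    ∀ᶠ Q' : V →L[ℝ] V →L[ℝ] ℝ in 𝓝 Q, HasIndex n k Q' := by
  obtain ⟨⟨H, h1, h2⟩, H', h3, h4⟩ := h
  filter_upwards [def_ev' H h2, def_ev H' h4] with Q' k1 k2
  exact ⟨⟨H, h1, k1⟩, H', h3, k2⟩

theorem morseJet_open {n : ℕ} {I : Set ℕ} {L : V →L[ℝ] ℝ} {Q : V →L[ℝ] V →L[ℝ] ℝ}
    (h : MorseJet n I L Q) :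
    ∃ b > 0, ∀ L' Q', ‖L' - L‖ ≤ b → ‖Q' - Q‖ ≤ b → MorseJet n I L' Q' := by
  refine ev_of ?_
  by_cases hL : L = 0
  · obtain ⟨k, hk, hQ⟩ := h hL
    filter_upwards [(continuous_snd.tendsto (L, Q)).eventually (hasIndex_ev hQ)] with z hz _
    exact ⟨k, hk, hz⟩
  · have h1 : ∀ᶠ z : (V →L[ℝ] ℝ) × (V →L[ℝ] V →L[ℝ] ℝ) in 𝓝 (L, Q), z.1 ≠ 0 :=
      (continuous_fst.tendsto (L, Q)).eventually_ne hL
    filter_upwards [h1] with z hz h0
    exact absurd h0 hz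

end

end Pool.Agent.N824.C2
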