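import Pool.Agent.N824.C2.CurvM

/-!
# Change of parametrization for critical points
-/

set_option autoImplicit false
set_option maxSynthPendingDepth 3

open Set Filter Topology Metric Function MeasureTheory
open scoped Manifold ContDiff Convolution InnerProductSpace
open Pool.Agent.Y522

set_option linter.unusedSectionVars false

noncomputable section

namespace Pool.Agent.N824.C2

variable {n : ℕ} {X : Type} [TopologicalSpace X] [ChartedSpace (E n) X]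

theorem HasIndex.comp {k : ℕ} {Q Q' : E n →L[ℝ] E n →L[ℝ] ℝ} (h : HasIndex n k Q)
    (T : E n ≃L[ℝ] E n) (hQ : ∀ u v, Q u v = Q' (T u) (T v)) : HasIndex n k Q' := by
  obtain ⟨⟨H, h1, h2⟩, H', h3, h4⟩ := h
  refine ⟨⟨H.map (T.toLinearEquiv : E n →ₗ[ℝ] E n), ?_, ?_⟩,
    H'.map (T.toLinearEquiv : E n →ₗ[ℝ] E n), ?_, ?_⟩
  · rw [← h1]
    exact LinearEquiv.finrank_map_eq T.toLinearEquiv H
  · rintro _ ⟨v, hv, rfl⟩ hv0
    have hv0' : v ≠ 0 := by
      rintro rfl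
      exact hv0 (map_zero _)
    have := h2 v hv hv0'
    rw [hQ] at this
    exact this
  · rw [← h3]
    exact LinearEquiv.finrank_map_eq T.toLinearEquiv H'
  · rintro _ ⟨v, hv, rfl⟩ hv0
    have hv0' : v ≠ 0 := by
      rintro rfl
      exact hv0 (map_zero _)
    have := h4 v hv hv0'
    rw [hQ] at this
    exact this

theorem jet_change [IsManifold (𝓡 n) ∞ X] {F : X → ℝ} {x : X}
    (hF : ContMDiffAt (𝓡 n) 𝓘(ℝ, ℝ) ∞ F x) {A A' : E n → X} {p p' : E n} (hAp : A p = x)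
    (hA : LD n A p) (hAp' : A' p' = x) (hA' : LD n A' p') :
    ∃ T : E n ≃L[ℝ] E n, fderiv ℝ (fun z => F (A' z)) p' =
        (fderiv ℝ (fun z => F (A z)) p).comp (T : E n →L[ℝ] E n) ∧
      (fderiv ℝ (fun z => F (A z)) p = 0 → ∀ u v,
        fderiv ℝ (fderiv ℝ fun z => F (A' z)) p' u v =
          fderiv ℝ (fderiv ℝ fun z => F (A z)) p (T u) (T v)) := by
  obtain ⟨B, hB, hBA, hBl, hBr⟩ := hA.exists_inverse
  rw [hAp] at hB hBA hBr
  obtain ⟨φ, hφ⟩ : ∃ φ : E n → E n, φ = fun z => B (A' z) := ⟨_, rfl⟩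
  obtain ⟨g, hg⟩ : ∃ g : E n → ℝ, g = fun z => F (A z) := ⟨_, rfl⟩
  have hφp : φ p' = p := by rw [hφ]; show B (A' p') = p; rw [hAp', hBA]
  have h1 : (fun z => F (A' z)) =ᶠ[𝓝 p'] g ∘ φ := by
    have h2 : Tendsto A' (𝓝 p') (𝓝 x) := by
      have h3 : Tendsto A' (𝓝 p') (𝓝 (A' p')) := hA'.continuousAt
      rwa [hAp'] at h3
    filter_upwards [h2.eventually hBr] with z hz
    rw [hφ, hg]
    show F (A' z) = F (A (B (A' z)))
    rw [hz]
  have hgs : ContDiffAt ℝ ∞ g p := by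
    have h3 : ContMDiffAt (𝓡 n) 𝓘(ℝ, ℝ) ∞ F (A p) := by rwa [hAp]
    have h4 : ContMDiffAt (𝓡 n) 𝓘(ℝ, ℝ) ∞ (F ∘ A) p := h3.comp p hA.contMDiffAt
    rw [hg]
    exact contMDiffAt_iff_contDiffAt.1 h4
  have hLφ : LD n φ p' := by
    rw [hφ]
    have : LD n B (A' p') := by rw [hAp']; exact hB
    exact this.comp_fun hA'
  have hφs : ContDiffAt ℝ ∞ φ p' := hLφ.contDiffAt
  obtain ⟨T, hT⟩ := hLφ.exists_equiv
  have hg1 : fderiv ℝ (fun z => F (A' z)) p' = (fderiv ℝ g p).comp (T : E n →L[ℝ] E n) := by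
    rw [h1.fderiv_eq, fderiv_comp p' (by rw [hφp]; exact hgs.differentiableAt (by simp))
      (hφs.differentiableAt (by simp)), hφp, hT.fderiv]
  rw [← hg]
  refine ⟨T, hg1, fun h0 u v => ?_⟩
  have hev : fderiv ℝ (fun z => F (A' z)) =ᶠ[𝓝 p'] fun z => (fderiv ℝ g (φ z)).comp (fderiv ℝ φ z) := by
    have k1 : ∀ᶠ z in 𝓝 p', DifferentiableAt ℝ φ z := by
      have k4 : ContDiffAt ℝ 1 φ p' := hφs.of_le (by simp)
      exact (k4.eventually (by simp)).mono fun z hz => hz.differentiableAt (by simp)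
    have k2 : ∀ᶠ z in 𝓝 p', DifferentiableAt ℝ g (φ z) := by
      have k3 : ∀ᶠ w in 𝓝 (φ p'), DifferentiableAt ℝ g w := by
        rw [hφp]
        have k4 : ContDiffAt ℝ 1 g p := hgs.of_le (by simp)
        exact (k4.eventually (by simp)).mono fun z hz => hz.differentiableAt (by simp)
      have k5 : Tendsto φ (𝓝 p') (𝓝 (φ p')) := hφs.continuousAt
      exact k5.eventually k3
    filter_upwards [h1.fderiv (𝕜 := ℝ), k1, k2] with z hz hz1 hz2
    rw [hz, fderiv_comp z hz2 hz1]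
  have c1 : HasFDerivAt (fderiv ℝ g) (fderiv ℝ (fderiv ℝ g) p) (φ p') := by
    rw [hφp]
    exact ((hgs.fderiv_right (m := ∞) (by simp)).differentiableAt (by simp)).hasFDerivAt
  have c2 : HasFDerivAt (fun z => fderiv ℝ g (φ z))
      ((fderiv ℝ (fderiv ℝ g) p).comp (T : E n →L[ℝ] E n)) p' := c1.comp p' hT
  have c3 : HasFDerivAt (fderiv ℝ φ) (fderiv ℝ (fderiv ℝ φ) p') p' :=
    ((hφs.fderiv_right (m := ∞) (by simp)).differentiableAt (by simp)).hasFDerivAt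
  have c4 := c2.clm_comp c3
  rw [hev.fderiv_eq, c4.fderiv]
  rw [hφp, h0, hT.fderiv]
  simp

theorem morse_change [IsManifold (𝓡 n) ∞ X] {I : Set ℕ} {F : X → ℝ} {x : X}
    (hF : ContMDiffAt (𝓡 n) 𝓘(ℝ, ℝ) ∞ F x) {A A' : E n → X} {p p' : E n} (hAp : A p = x)
    (hA : LD n A p) (hAp' : A' p' = x) (hA' : LD n A' p')
    (h : MorseJet n I (fderiv ℝ (fun z => F (A' z)) p') (fderiv ℝ (fderiv ℝ fun z => F (A' z)) p')) :
    MorseJet n I (fderiv ℝ (fun z => F (A z)) p) (fderiv ℝ (fderiv ℝ fun z => F (A z)) p) := by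
  obtain ⟨T, h1, h2⟩ := jet_change hF hAp hA hAp' hA'
  intro h0
  obtain ⟨k, hk, hQ⟩ := h (by rw [h1, h0, ContinuousLinearMap.zero_comp])
  exact ⟨k, hk, hQ.comp T (h2 h0)⟩

end Pool.Agent.N824.C2
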