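import Pool.Agent.N824.C2.CurvP

/-!
# Pinched negative curvature of immersions at the level of 2-jets
-/

set_option autoImplicit false
set_option maxSynthPendingDepth 3

open Set Filter Topology Metric Function MeasureTheory
open scoped Manifold ContDiff Convolution InnerProductSpace

set_option linter.unusedSectionVars false

noncomputable section

namespace Pool.Agent.N824.C2

section

variable {V W : Type} [NormedAddCommGroup V] [InnerProductSpace ℝ V] [FiniteDimensional ℝ V]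
  [NormedAddCommGroup W] [InnerProductSpace ℝ W] [FiniteDimensional ℝ W]

/-- negative and pinched sectional curvature, at the level of 2-jets -/
def NegPinched (a : ℝ) (L : V →L[ℝ] W) (Q : V →L[ℝ] V →L[ℝ] W) : Prop :=
  Injective L ∧ ∀ u v u' v' : V, ‖u‖ = 1 → ‖v‖ = 1 → ⟪u, v⟫_ℝ = 0 → ‖u'‖ = 1 → ‖v'‖ = 1 →
    ⟪u', v'⟫_ℝ = 0 → secNum L Q u v < 0 ∧
      a * (secNum L Q u' v' * areaSq L u v) < secNum L Q u v * areaSq L u' v'

theorem negPinched_open {a : ℝ} {L : V →L[ℝ] W} {Q : V →L[ℝ] V →L[ℝ] W}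
    (h : NegPinched a L Q) :
    ∃ b > 0, ∀ L' Q', ‖L' - L‖ ≤ b → ‖Q' - Q‖ ≤ b → NegPinched a L' Q' := by
  refine ev_of ?_
  have h1 : ∀ᶠ z : (V →L[ℝ] W) × (V →L[ℝ] V →L[ℝ] W) in 𝓝 (L, Q),
      ∀ y ∈ ({z : V × V | ‖z.1‖ = 1 ∧ ‖z.2‖ = 1 ∧ ⟪z.1, z.2⟫_ℝ = 0} ×ˢ
          {z : V × V | ‖z.1‖ = 1 ∧ ‖z.2‖ = 1 ∧ ⟪z.1, z.2⟫_ℝ = 0} : Set ((V × V) × (V × V))),
        secNum z.1 z.2 y.1.1 y.1.2 < 0 ∧
          a * (secNum z.1 z.2 y.2.1 y.2.2 * areaSq z.1 y.1.1 y.1.2) <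
            secNum z.1 z.2 y.1.1 y.1.2 * areaSq z.1 y.2.1 y.2.2 := by
    refine (compact_on.prod compact_on).eventually_forall_of_forall_eventually fun y hy => ?_
    obtain ⟨⟨y1, y2, y3⟩, y4, y5, y6⟩ := hy
    have hh := h.2 y.1.1 y.1.2 y.2.1 y.2.2 y1 y2 y3 y4 y5 y6
    have h2 : ContinuousAt
        (fun z : ((V →L[ℝ] W) × (V →L[ℝ] V →L[ℝ] W)) × ((V × V) × (V × V)) =>
          secNum z.1.1 z.1.2 z.2.1.1 z.2.1.2) ((L, Q), y) :=
      secNum_cont (by fun_prop) (by fun_prop) (by fun_prop) (by fun_prop) h.1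
    have h2' : ContinuousAt
        (fun z : ((V →L[ℝ] W) × (V →L[ℝ] V →L[ℝ] W)) × ((V × V) × (V × V)) =>
          secNum z.1.1 z.1.2 z.2.2.1 z.2.2.2) ((L, Q), y) :=
      secNum_cont (by fun_prop) (by fun_prop) (by fun_prop) (by fun_prop) h.1
    have h3 : ContinuousAt
        (fun z : ((V →L[ℝ] W) × (V →L[ℝ] V →L[ℝ] W)) × ((V × V) × (V × V)) =>
          areaSq z.1.1 z.2.1.1 z.2.1.2) ((L, Q), y) :=
      areaSq_cont (by fun_prop) (by fun_prop) (by fun_prop)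
    have h3' : ContinuousAt
        (fun z : ((V →L[ℝ] W) × (V →L[ℝ] V →L[ℝ] W)) × ((V × V) × (V × V)) =>
          areaSq z.1.1 z.2.2.1 z.2.2.2) ((L, Q), y) :=
      areaSq_cont (by fun_prop) (by fun_prop) (by fun_prop)
    exact (h2.eventually_lt_const hh.1).and
      ((continuousAt_const.mul (h2'.mul h3)).eventually_lt (h2.mul h3') hh.2)
  filter_upwards [inj_ev h.1, h1] with z hz hz1
  exact ⟨hz, fun u v u' v' hu hv huv hu' hv' huv' =>
    hz1 ((u, v), (u', v')) ⟨⟨hu, hv, huv⟩, hu', hv', huv'⟩⟩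

end

end Pool.Agent.N824.C2
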