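import Pool.Agent.N824.C2.Curv

/-!
# Pinched curvature of immersions at the level of 2-jets
-/

set_option autoImplicit false
set_option maxSynthPendingDepth 3

open Set Filter Topology Metric Function MeasureTheory
open scoped Manifold ContDiff Convolution InnerProductSpace

set_option linter.unusedSectionVars false

noncomputable section

namespace Pool.Agent.N824.C2

section

variable {V W : Type} [NormedAddCommGroup V] [InnerProductSpace ℝ V] [FiniteDimensional ℝ V]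
  [NormedAddCommGroup W] [InnerProductSpace ℝ W] [FiniteDimensional ℝ W]

/-- the square of the area of the parallelogram of `L u` and `L v` -/
def areaSq (L : V →L[ℝ] W) (u v : V) : ℝ := ‖L u‖ ^ 2 * ‖L v‖ ^ 2 - ⟪L u, L v⟫_ℝ ^ 2

/-- positive and pinched sectional curvature, at the level of 2-jets -/
def Pinched (a : ℝ) (L : V →L[ℝ] W) (Q : V →L[ℝ] V →L[ℝ] W) : Prop :=
  Injective L ∧ ∀ u v u' v' : V, ‖u‖ = 1 → ‖v‖ = 1 → ⟪u, v⟫_ℝ = 0 → ‖u'‖ = 1 → ‖v'‖ = 1 →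
    ⟪u', v'⟫_ℝ = 0 → 0 < secNum L Q u v ∧
      secNum L Q u v * areaSq L u' v' < a * (secNum L Q u' v' * areaSq L u v)

theorem areaSq_cont {α : Type} [TopologicalSpace α] {a : α} {l : α → V →L[ℝ] W} {u v : α → V}
    (hl : ContinuousAt l a) (hu : ContinuousAt u a) (hv : ContinuousAt v a) :
    ContinuousAt (fun x => areaSq (l x) (u x) (v x)) a := by
  have h1 := hl.clm_apply hu
  have h2 := hl.clm_apply hv
  exact ((h1.norm.pow 2).mul (h2.norm.pow 2)).sub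
    ((ContinuousAt.inner (𝕜 := ℝ) h1 h2).pow 2)

theorem pinched_open {a : ℝ} {L : V →L[ℝ] W} {Q : V →L[ℝ] V →L[ℝ] W} (h : Pinched a L Q) :
    ∃ b > 0, ∀ L' Q', ‖L' - L‖ ≤ b → ‖Q' - Q‖ ≤ b → Pinched a L' Q' := by
  refine ev_of ?_
  have h1 : ∀ᶠ z : (V →L[ℝ] W) × (V →L[ℝ] V →L[ℝ] W) in 𝓝 (L, Q),
      ∀ y ∈ ({z : V × V | ‖z.1‖ = 1 ∧ ‖z.2‖ = 1 ∧ ⟪z.1, z.2⟫_ℝ = 0} ×ˢ
          {z : V × V | ‖z.1‖ = 1 ∧ ‖z.2‖ = 1 ∧ ⟪z.1, z.2⟫_ℝ = 0} : Set ((V × V) × (V × V))),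
        0 < secNum z.1 z.2 y.1.1 y.1.2 ∧
          secNum z.1 z.2 y.1.1 y.1.2 * areaSq z.1 y.2.1 y.2.2 <
            a * (secNum z.1 z.2 y.2.1 y.2.2 * areaSq z.1 y.1.1 y.1.2) := by
    refine (compact_on.prod compact_on).eventually_forall_of_forall_eventually fun y hy => ?_
    obtain ⟨⟨y1, y2, y3⟩, y4, y5, y6⟩ := hy
    have hh := h.2 y.1.1 y.1.2 y.2.1 y.2.2 y1 y2 y3 y4 y5 y6
    have h2 : ContinuousAt
        (fun z : ((V →L[ℝ] W) × (V →L[ℝ] V →L[ℝ] W)) × ((V × V) × (V × V)) =>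
          secNum z.1.1 z.1.2 z.2.1.1 z.2.1.2) ((L, Q), y) :=
      secNum_cont (by fun_prop) (by fun_prop) (by fun_prop) (by fun_prop) h.1
    have h2' : ContinuousAt
        (fun z : ((V →L[ℝ] W) × (V →L[ℝ] V →L[ℝ] W)) × ((V × V) × (V × V)) =>
          secNum z.1.1 z.1.2 z.2.2.1 z.2.2.2) ((L, Q), y) :=
      secNum_cont (by fun_prop) (by fun_prop) (by fun_prop) (by fun_prop) h.1
    have h3 : ContinuousAt
        (fun z : ((V →L[ℝ] W) × (V →L[ℝ] V →L[ℝ] W)) × ((V × V) × (V × V)) =>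
          areaSq z.1.1 z.2.1.1 z.2.1.2) ((L, Q), y) :=
      areaSq_cont (by fun_prop) (by fun_prop) (by fun_prop)
    have h3' : ContinuousAt
        (fun z : ((V →L[ℝ] W) × (V →L[ℝ] V →L[ℝ] W)) × ((V × V) × (V × V)) =>
          areaSq z.1.1 z.2.2.1 z.2.2.2) ((L, Q), y) :=
      areaSq_cont (by fun_prop) (by fun_prop) (by fun_prop)
    exact (h2.eventually_const_lt hh.1).and
      ((h2.mul h3').eventually_lt (continuousAt_const.mul (h2'.mul h3)) hh.2)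
  filter_upwards [inj_ev h.1, h1] with z hz hz1
  exact ⟨hz, fun u v u' v' hu hv huv hu' hv' huv' =>
    hz1 ((u, v), (u', v')) ⟨⟨hu, hv, huv⟩, hu', hv', huv'⟩⟩

end

open Pool.Agent.Y522 Pool.Agent.Y954.SH Pool.Agent.N824.CR Pool.Agent.N824.CN
open Pool.Agent.N824.CJ

/-- smooth solutions of an open relation of second order on a closed manifold exist iff coarse
ones exist -/
theorem main2c (n : ℕ) : ∃ C₀ : ℝ, ∀ C, C₀ ≤ C → ∀ (W : Type) [NormedAddCommGroup W]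
    [NormedSpace ℝ W] [FiniteDimensional ℝ W]
    (P : (E n →L[ℝ] W) → (E n →L[ℝ] E n →L[ℝ] W) → Prop),
    (∀ L Q, (∀ u v, Q u v = Q v u) → P L Q → ∃ b > 0, Rob P b L Q) →
    ∀ (X : Type) [TopologicalSpace X] [ChartedSpace (E n) X]
      [IsManifold (𝓡 n) ∞ X] [T2Space X] [CompactSpace X],
      ((∃ (F : X → W), ContMDiff (𝓡 n) 𝓘(ℝ, W) ∞ F ∧ ∀ x, Sat P F x) ↔
        ∃ (d : X → X → ℝ) (S : Set ℝ) (f : ℝ → X → W),
          (0 : ℝ) ∈ closure (S ∩ Ioi 0) ∧ ∀ x, Crs P C d S f x) := by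
  obtain ⟨C₀, hC₀⟩ := main2 n
  refine ⟨C₀, fun C hC W _ _ _ P hP X _ _ _ _ _ => ⟨?_, ?_⟩⟩
  · rintro ⟨F, hF, hs⟩
    obtain ⟨d, hd⟩ := exists_distK (n := n) (X := X) isCompact_univ
    refine ⟨d, univ, fun _ => F, ?_, fun x => ?_⟩
    · rw [univ_inter, closure_Ioi]
      exact self_mem_Ici
    · obtain ⟨A, rfl, hA, hPA⟩ := hs x
      obtain ⟨κ, ρ, hκ, hρ, hbi⟩ := hd A hA (mem_univ _)
      exact Crs.of_smooth hP C univ hF hA hPA hκ hρ hbi
  · rintro ⟨d, S, f, hS, hf⟩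
    have : LocallyCompactSpace X := ChartedSpace.locallyCompactSpace (E n) X
    have : SecondCountableTopology X := ChartedSpace.secondCountable_of_sigmaCompact (E n) X
    obtain ⟨F, K, hF, -, -, -, hs⟩ := (hC₀ C hC W P hP X ∅ isClosed_empty (fun _ => 0)
      contMDiff_const).2 ⟨∅, d, S, f, isOpen_empty, subset_rfl, by
        rw [compl_empty]; exact isCompact_univ, fun x hx => absurd hx (notMem_empty x), hS,
        fun r _ x hx => absurd hx (notMem_empty x), fun x _ => hf x⟩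
    exact ⟨F, hF, hs⟩

end Pool.Agent.N824.C2
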