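import Pool.Agent.N824.C2.CurvP

/-!
# Ricci curvature of immersions at the level of 2-jets
-/

set_option autoImplicit false
set_option maxSynthPendingDepth 3

open Set Filter Topology Metric Function MeasureTheory
open scoped Manifold ContDiff Convolution InnerProductSpace

set_option linter.unusedSectionVars false

noncomputable section

namespace Pool.Agent.N824.C2

section

variable {V W : Type} [NormedAddCommGroup V] [InnerProductSpace ℝ V] [FiniteDimensional ℝ V]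
  [NormedAddCommGroup W] [InnerProductSpace ℝ W] [FiniteDimensional ℝ W]

/-- the Ricci curvature `Ric (v, v)`, by Gauss's equation; `e` is an orthonormal basis of `V` -/
def ricCurv {ι : Type} [Fintype ι] (e : ι → V) (L : V →L[ℝ] W)
    (Q : V →L[ℝ] V →L[ℝ] W) (v : V) : ℝ :=
  ⟪II L Q v v, ∑ i, II L Q (invMetric L (e i)) (e i)⟫_ℝ -
    ∑ i, ⟪II L Q v (invMetric L (e i)), II L Q v (e i)⟫_ℝ

/-- the Ricci curvature is nearly `lam` times the metric -/
def NearEin {ι : Type} [Fintype ι] (e : ι → V) (lam ε : ℝ) (L : V →L[ℝ] W)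
    (Q : V →L[ℝ] V →L[ℝ] W) : Prop :=
  Injective L ∧ ∀ v : V, ‖v‖ = 1 → |ricCurv e L Q v - lam * ‖L v‖ ^ 2| < ε * ‖L v‖ ^ 2

/-- the tracefree Ricci curvature is small compared with the scalar curvature; `c` is the inverse of
the dimension -/
def NearEinS {ι : Type} [Fintype ι] (e : ι → V) (c ε : ℝ) (L : V →L[ℝ] W)
    (Q : V →L[ℝ] V →L[ℝ] W) : Prop :=
  Injective L ∧ ∀ v : V, ‖v‖ = 1 →
    |ricCurv e L Q v - c * scalCurv e L Q * ‖L v‖ ^ 2| < ε * |scalCurv e L Q| * ‖L v‖ ^ 2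

theorem ricCurv_cont {ι : Type} [Fintype ι] (e : ι → V) {α : Type} [TopologicalSpace α] {a : α}
    {l : α → V →L[ℝ] W} {q : α → V →L[ℝ] V →L[ℝ] W} {v : α → V} (hl : ContinuousAt l a)
    (hq : ContinuousAt q a) (hv : ContinuousAt v a) (hL : Injective (l a)) :
    ContinuousAt (fun x => ricCurv e (l x) (q x) (v x)) a := by
  have h2 : ContinuousAt (fun x => invMetric (l x)) a :=
    ContinuousAt.comp (f := l) (g := invMetric) (invMetric_cont hL) hl
  have h3 : ∀ i, ContinuousAt (fun x => invMetric (l x) (e i)) a := fun i =>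
    h2.clm_apply continuousAt_const
  unfold ricCurv
  refine ContinuousAt.sub (ContinuousAt.inner (𝕜 := ℝ) (II_cont hl hq hv hv hL) ?_) ?_
  · exact tendsto_finsetSum _ fun i _ => II_cont hl hq (h3 i) continuousAt_const hL
  · exact tendsto_finsetSum _ fun i _ =>
      ContinuousAt.inner (𝕜 := ℝ) (II_cont hl hq hv (h3 i) hL)
        (II_cont hl hq hv continuousAt_const hL)

theorem compact_unit : IsCompact {v : V | ‖v‖ = 1} := by
  have h : {v : V | ‖v‖ = 1} = sphere 0 1 := by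
    ext v
    simp
  rw [h]
  exact isCompact_sphere 0 1

theorem nearEin_open {ι : Type} [Fintype ι] (e : ι → V) {lam ε : ℝ} {L : V →L[ℝ] W}
    {Q : V →L[ℝ] V →L[ℝ] W} (h : NearEin e lam ε L Q) :
    ∃ b > 0, ∀ L' Q', ‖L' - L‖ ≤ b → ‖Q' - Q‖ ≤ b → NearEin e lam ε L' Q' := by
  refine ev_of ?_
  have h1 : ∀ᶠ z : (V →L[ℝ] W) × (V →L[ℝ] V →L[ℝ] W) in 𝓝 (L, Q),
      ∀ y ∈ {v : V | ‖v‖ = 1},
        |ricCurv e z.1 z.2 y - lam * ‖z.1 y‖ ^ 2| < ε * ‖z.1 y‖ ^ 2 := by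
    refine compact_unit.eventually_forall_of_forall_eventually fun y hy => ?_
    have h2 : ContinuousAt (fun z : ((V →L[ℝ] W) × (V →L[ℝ] V →L[ℝ] W)) × V =>
        ricCurv e z.1.1 z.1.2 z.2) ((L, Q), y) :=
      ricCurv_cont e (by fun_prop) (by fun_prop) (by fun_prop) h.1
    have h3 : ContinuousAt (fun z : ((V →L[ℝ] W) × (V →L[ℝ] V →L[ℝ] W)) × V =>
        ‖z.1.1 z.2‖ ^ 2) ((L, Q), y) := by fun_prop
    exact (h2.sub (continuousAt_const.mul h3)).abs.eventually_lt (continuousAt_const.mul h3)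
      (h.2 y hy)
  filter_upwards [inj_ev h.1, h1] with z hz hz1
  exact ⟨hz, fun v hv => hz1 v hv⟩

theorem nearEinS_open {ι : Type} [Fintype ι] (e : ι → V) {c ε : ℝ} {L : V →L[ℝ] W}
    {Q : V →L[ℝ] V →L[ℝ] W} (h : NearEinS e c ε L Q) :
    ∃ b > 0, ∀ L' Q', ‖L' - L‖ ≤ b → ‖Q' - Q‖ ≤ b → NearEinS e c ε L' Q' := by
  refine ev_of ?_
  have h1 : ∀ᶠ z : (V →L[ℝ] W) × (V →L[ℝ] V →L[ℝ] W) in 𝓝 (L, Q),
      ∀ y ∈ {v : V | ‖v‖ = 1},
        |ricCurv e z.1 z.2 y - c * scalCurv e z.1 z.2 * ‖z.1 y‖ ^ 2| <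
          ε * |scalCurv e z.1 z.2| * ‖z.1 y‖ ^ 2 := by
    refine compact_unit.eventually_forall_of_forall_eventually fun y hy => ?_
    have h2 : ContinuousAt (fun z : ((V →L[ℝ] W) × (V →L[ℝ] V →L[ℝ] W)) × V =>
        ricCurv e z.1.1 z.1.2 z.2) ((L, Q), y) :=
      ricCurv_cont e (by fun_prop) (by fun_prop) (by fun_prop) h.1
    have h2' : ContinuousAt (fun z : ((V →L[ℝ] W) × (V →L[ℝ] V →L[ℝ] W)) × V =>
        scalCurv e z.1.1 z.1.2) ((L, Q), y) :=
      scalCurv_cont e (by fun_prop) (by fun_prop) h.1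
    have h3 : ContinuousAt (fun z : ((V →L[ℝ] W) × (V →L[ℝ] V →L[ℝ] W)) × V =>
        ‖z.1.1 z.2‖ ^ 2) ((L, Q), y) := by fun_prop
    exact (h2.sub ((continuousAt_const.mul h2').mul h3)).abs.eventually_lt
      ((continuousAt_const.mul h2'.abs).mul h3) (h.2 y hy)
  filter_upwards [inj_ev h.1, h1] with z hz hz1
  exact ⟨hz, fun v hv => hz1 v hv⟩

end

end Pool.Agent.N824.C2
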