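import Pool.Agent.N824.C2.Taylor

/-!
# Second order estimates for one patch and for patched maps
-/

set_option autoImplicit false
set_option maxSynthPendingDepth 3

open Set Filter Topology Metric Function MeasureTheory
open scoped Manifold ContDiff Convolution

set_option linter.unusedSectionVars false

noncomputable section

namespace Pool.Agent.N824.C2

open Pool.Agent.Y522 Pool.Agent.Y954.SH Pool.Agent.N824.CR Pool.Agent.N824.CN
open Pool.Agent.N824.CJ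

variable {n : ℕ} {W : Type} [NormedAddCommGroup W] [NormedSpace ℝ W] [FiniteDimensional ℝ W]

/-- adding a constant to an integrand -/
lemma int_le {f g : E n → ℝ} {a : E n} {r b J : ℝ} (hr : 0 < r)
    (hf : IntegrableOn f (closedBall a r)) (hg : IntegrableOn g (closedBall a r))
    (hJ : ∫ s in closedBall a r, g s ≤ J)
    (h : ∀ s, ‖s - a‖ ≤ r → f s ≤ g s + b) :
    ∫ s in closedBall a r, f s ≤ J + b * (r ^ n * VB n) := by
  have hci' : IntegrableOn (fun _ : E n => b) (closedBall a r) :=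
    integrableOn_const (by exact measure_closedBall_lt_top.ne)
  have h3 : ∫ s in closedBall a r, f s ≤ ∫ s in closedBall a r, (g s + b) := by
    refine setIntegral_mono_on hf (hg.add hci') measurableSet_closedBall fun s hs => ?_
    rw [mem_closedBall, dist_eq_norm] at hs
    exact h s hs
  have h4 := integral_add hg hci'
  beta_reduce at h4
  have h5 : ∫ _ in closedBall a r, b = b * (r ^ n * VB n) := by
    rw [setIntegral_const, vol_cb a hr, smul_eq_mul, mul_comm]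
  rw [h5] at h4
  rw [h4] at h3
  linarith

/-- the second order estimates for one patch -/
theorem est2 {h1 h2 : E n → W} {φ ψ : E n → E n} {p : E n} {r κ δ R2 M : ℝ}
    {L : E n →L[ℝ] W} {Q : E n →L[ℝ] E n →L[ℝ] W} (hQ : ∀ u v, Q u v = Q v u)
    {T : E n →L[ℝ] E n} {N : E n →L[ℝ] E n →L[ℝ] E n} {c : W}
    (hr : 0 < r) (hr1 : r ≤ 1) (hκ1 : 1 ≤ κ) (hδ : 0 ≤ δ)
    (hback : ∀ s, ‖s - φ p‖ ≤ r → φ (ψ s) = s)
    (hh : ∀ s, ‖s - φ p‖ ≤ r → h1 (ψ s) = h2 s)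
    (hψc : ContinuousOn ψ (closedBall (φ p) r))
    (hlip : ∀ s, ‖s - φ p‖ ≤ r → ‖ψ s - p‖ ≤ κ ^ 2 * r)
    (hφl : ∀ s s', ‖s - φ p‖ ≤ r → ‖s' - φ p‖ ≤ r → ‖s - s'‖ ≤ κ ^ 2 * ‖ψ s - ψ s'‖)
    (hT3 : ∀ s, ‖s - φ p‖ ≤ r → ‖ψ s - Quad p T N (φ p) s‖ ≤ M * r ^ 3)
    (hTM : ‖T‖ ≤ M) (hNM : ‖N‖ ≤ M) (hNs : ∀ u v, N u v = N v u)
    (hφs : ContDiffAt ℝ ∞ φ p) (hφn : ‖fderiv ℝ φ p‖ ≤ κ ^ 2)
    (hφ2 : ‖fderiv ℝ (fderiv ℝ φ) p‖ ≤ M) (hTφ : ∀ u, T (fderiv ℝ φ p u) = u)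
    (hT2 : ∀ u v, N (fderiv ℝ φ p u) (fderiv ℝ φ p v) + T (fderiv ℝ (fderiv ℝ φ) p u v) = 0)
    (m1 : 1 ≤ M) (m2 : κ ^ 2 ≤ M) (m3 : κ ^ (2 * n) ≤ M) (m4 : VB n ≤ M) (m5 : MD n ≤ M)
    (m6 : MK n ≤ M) (m7 : MDD n ≤ M)
    (hG : IntegrableOn h2 (closedBall 0 R2)) (hR : ‖φ p‖ + r ≤ R2)
    (hint : IntegrableOn h1 (closedBall p (κ ^ 2 * r)))
    (hAM : ∫ q in closedBall p (κ ^ 2 * r), ‖h1 q - Quad c L Q p q‖ ≤ δ * r ^ (n + 2)) :
    ‖Ml n h2 R2 r (φ p) - c‖ ≤ 6 * M ^ 6 * ((‖L‖ + ‖Q‖ + δ) * r) ∧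
      ‖fderiv ℝ (fun z => Ml n h2 R2 r (φ z)) p - L‖ ≤ 6 * M ^ 6 * ((‖L‖ + ‖Q‖ + δ) * r) ∧
      ‖fderiv ℝ (fderiv ℝ fun z => Ml n h2 R2 r (φ z)) p - Q‖ ≤
        MDD n * κ ^ (2 * n + 4) * δ + 6 * M ^ 6 * ((‖L‖ + ‖Q‖ + δ) * r) := by
  have hκ : 0 ≤ κ ^ 2 := sq_nonneg κ
  have hM0 : 0 ≤ M := zero_le_one.trans m1
  have hVB := VB_nonneg (n := n)
  have hMD := MD_nonneg (n := n)
  have hMK := MK_nonneg (n := n)
  have hMDD := MDD_nonneg (n := n)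
  have hL0 := norm_nonneg L
  have hQ0 := norm_nonneg Q
  obtain ⟨S, hS⟩ : ∃ S : ℝ, S = ‖L‖ + ‖Q‖ + δ := ⟨_, rfl⟩
  have hS0 : 0 ≤ S := by rw [hS]; positivity
  have hLQS : ‖L‖ + ‖Q‖ ≤ S := by rw [hS]; linarith
  have hsub : closedBall (φ p) r ⊆ closedBall 0 R2 := by
    intro s hs
    rw [mem_closedBall, dist_eq_norm] at hs
    rw [mem_closedBall_zero_iff]
    calc ‖s‖ = ‖(s - φ p) + φ p‖ := by congr 1; abel
      _ ≤ ‖s - φ p‖ + ‖φ p‖ := norm_add_le _ _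
      _ ≤ R2 := by linarith
  have hmem : ∀ s, s ∈ closedBall (φ p) r ↔ ‖s - φ p‖ ≤ r := fun s => by
    rw [mem_closedBall, dist_eq_norm]
  have hG2 : IntegrableOn h2 (closedBall (φ p) r) := hG.mono_set hsub
  obtain ⟨g, hg⟩ : ∃ g : E n → ℝ, g = fun q => ‖h1 q - Quad c L Q p q‖ := ⟨_, rfl⟩
  have hgi : IntegrableOn g (closedBall p (κ ^ 2 * r)) := by
    rw [hg]
    refine Integrable.norm (hint.sub ?_)
    exact (Quad_smooth c L Q p).continuous.continuousOn.integrableOn_compact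
      (isCompact_closedBall _ _)
  have hcov := cov (ψ := ψ) (φ := φ) (a := φ p) (p := p) (r := r) (r' := κ ^ 2 * r)
    (k := (κ ^ 2).toNNReal) g hψc (fun s hs => by
      rw [hmem] at hs
      refine ⟨?_, hback s hs⟩
      rw [mem_closedBall, dist_eq_norm]
      exact hlip s hs) (by
      refine LipschitzOnWith.of_dist_le_mul ?_
      rintro _ ⟨s, hs, rfl⟩ _ ⟨s', hs', rfl⟩
      rw [hmem] at hs hs'
      rw [hback s hs, hback s' hs', dist_eq_norm, dist_eq_norm, Real.coe_toNNReal _ hκ]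
      exact hφl s s' hs hs') hgi (fun q => by rw [hg]; exact norm_nonneg _)
  rw [Real.coe_toNNReal _ hκ, ← pow_mul] at hcov
  obtain ⟨hci, hcl⟩ := hcov
  have hκn : 0 ≤ κ ^ (2 * n) := by rw [pow_mul]; positivity
  have hcl' : ∫ s in closedBall (φ p) r, g (ψ s) ≤ κ ^ (2 * n) * (δ * r ^ (n + 2)) := by
    refine hcl.trans ?_
    rw [← hg] at hAM
    gcongr
  -- the pulled back jet
  obtain ⟨L', hL'⟩ : ∃ L' : E n →L[ℝ] W, L' = L.comp T := ⟨_, rfl⟩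
  obtain ⟨Q', hQ'⟩ : ∃ Q' : E n →L[ℝ] E n →L[ℝ] W, Q' = Q.bilinearComp T T +
    (ContinuousLinearMap.compL ℝ (E n) (E n) W L).comp N := ⟨_, rfl⟩
  have hQ'a : ∀ u v, Q' u v = Q (T u) (T v) + L (N u v) := fun u v => by
    rw [hQ']
    rfl
  have hQ's : ∀ u v, Q' u v = Q' v u := fun u v => by
    rw [hQ'a, hQ'a, hQ, hNs]
  have hL'n : ‖L'‖ ≤ M * S := by
    rw [hL']
    refine (ContinuousLinearMap.opNorm_comp_le _ _).trans ?_
    calc ‖L‖ * ‖T‖ ≤ S * M := by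
          gcongr
          linarith
      _ = _ := mul_comm _ _
  have hQ'n : ‖Q'‖ ≤ M ^ 2 * S := by
    refine ContinuousLinearMap.opNorm_le_bound₂ _ (by positivity) fun u v => ?_
    rw [hQ'a]
    have k1 : ‖Q (T u) (T v)‖ ≤ ‖Q‖ * (M * ‖u‖) * (M * ‖v‖) := by
      refine (ContinuousLinearMap.le_opNorm₂ _ _ _).trans ?_
      have a1 : ‖T u‖ ≤ M * ‖u‖ := (ContinuousLinearMap.le_opNorm _ _).trans (by gcongr)
      have a2 : ‖T v‖ ≤ M * ‖v‖ := (ContinuousLinearMap.le_opNorm _ _).trans (by gcongr)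
      gcongr
    have k2 : ‖L (N u v)‖ ≤ ‖L‖ * (M * ‖u‖ * ‖v‖) := by
      refine (ContinuousLinearMap.le_opNorm _ _).trans ?_
      have a1 : ‖N u v‖ ≤ M * ‖u‖ * ‖v‖ :=
        (ContinuousLinearMap.le_opNorm₂ _ _ _).trans (by gcongr)
      gcongr
    have k3 : ‖L‖ * (M * ‖u‖ * ‖v‖) ≤ M ^ 2 * ‖L‖ * (‖u‖ * ‖v‖) := by
      have : M ≤ M ^ 2 := by nlinarith
      calc ‖L‖ * (M * ‖u‖ * ‖v‖) = M * (‖L‖ * (‖u‖ * ‖v‖)) := by ring
        _ ≤ M ^ 2 * (‖L‖ * (‖u‖ * ‖v‖)) := by gcongr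
        _ = _ := by ring
    calc _ ≤ ‖Q‖ * (M * ‖u‖) * (M * ‖v‖) + M ^ 2 * ‖L‖ * (‖u‖ * ‖v‖) :=
          (norm_add_le _ _).trans (add_le_add k1 (k2.trans k3))
      _ = M ^ 2 * (‖L‖ + ‖Q‖) * (‖u‖ * ‖v‖) := by ring
      _ ≤ M ^ 2 * S * (‖u‖ * ‖v‖) := by gcongr
      _ = _ := by ring
  have hr0 := hr.le
  have hr3 : r ^ 3 ≤ r ^ 2 := pow_le_pow_of_le_one hr0 hr1 (by norm_num)
  have hr2 : r ^ 2 ≤ r := by nlinarith
  have hquad : ∀ s, ‖s - φ p‖ ≤ r →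
      ‖h2 s - Quad c L' Q' (φ p) s‖ ≤ g (ψ s) + 2 * M ^ 2 * S * r ^ 3 := by
    intro s hs
    obtain ⟨x, hx⟩ : ∃ x, x = ψ s - p := ⟨_, rfl⟩
    obtain ⟨y, hy⟩ : ∃ y, y = s - φ p := ⟨_, rfl⟩
    have hxn : ‖x‖ ≤ M * r := by rw [hx]; exact (hlip s hs).trans (by gcongr)
    have hyn : ‖y‖ ≤ r := by rw [hy]; exact hs
    have hTy : ‖T y‖ ≤ M * r := (ContinuousLinearMap.le_opNorm _ _).trans (by gcongr)
    have hNy : ‖N y y‖ ≤ M * r ^ 2 := by
      refine (ContinuousLinearMap.le_opNorm₂ _ _ _).trans ?_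
      calc ‖N‖ * ‖y‖ * ‖y‖ ≤ M * r * r := by gcongr
        _ = _ := by ring
    have hz : ‖x - T y - (1 / 2 : ℝ) • N y y‖ ≤ M * r ^ 3 := by
      have := hT3 s hs
      have e : ψ s - Quad p T N (φ p) s = x - T y - (1 / 2 : ℝ) • N y y := by
        rw [hx, hy]
        unfold Quad
        abel
      rwa [e] at this
    have hxy : ‖x - T y‖ ≤ 2 * M * r ^ 2 := by
      have e : x - T y = (x - T y - (1 / 2 : ℝ) • N y y) + (1 / 2 : ℝ) • N y y := by abel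
      rw [e]
      refine (norm_add_le _ _).trans ?_
      rw [norm_smul]
      have : ‖(1 / 2 : ℝ)‖ = 1 / 2 := by norm_num
      rw [this]
      nlinarith [norm_nonneg (N y y)]
    have e1 : h2 s - Quad c L' Q' (φ p) s = (h1 (ψ s) - Quad c L Q p (ψ s)) +
        (L (x - T y - (1 / 2 : ℝ) • N y y) +
          (1 / 2 : ℝ) • (Q (x - T y) x + Q (T y) (x - T y))) := by
      rw [hh s hs]
      unfold Quad
      rw [← hx, ← hy, hQ'a, hL']
      simp only [map_sub, map_smul, sub_apply, ContinuousLinearMap.comp_apply, smul_add, smul_sub]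
      abel
    rw [e1]
    refine (norm_add_le _ _).trans ?_
    have k0 : ‖h1 (ψ s) - Quad c L Q p (ψ s)‖ = g (ψ s) := by rw [hg]
    rw [k0]
    refine add_le_add le_rfl ((norm_add_le _ _).trans ?_)
    have k1 : ‖L (x - T y - (1 / 2 : ℝ) • N y y)‖ ≤ ‖L‖ * (M * r ^ 3) :=
      (ContinuousLinearMap.le_opNorm _ _).trans (by gcongr)
    have k2 : ‖Q (x - T y) x‖ ≤ ‖Q‖ * (2 * M * r ^ 2) * (M * r) :=
      (ContinuousLinearMap.le_opNorm₂ _ _ _).trans (by gcongr)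
    have k3 : ‖Q (T y) (x - T y)‖ ≤ ‖Q‖ * (M * r) * (2 * M * r ^ 2) :=
      (ContinuousLinearMap.le_opNorm₂ _ _ _).trans (by gcongr)
    have k4 : ‖(1 / 2 : ℝ) • (Q (x - T y) x + Q (T y) (x - T y))‖ ≤
        2 * M ^ 2 * ‖Q‖ * r ^ 3 := by
      rw [norm_smul]
      have : ‖(1 / 2 : ℝ)‖ = 1 / 2 := by norm_num
      rw [this]
      have := norm_add_le (Q (x - T y) x) (Q (T y) (x - T y))
      calc 1 / 2 * ‖Q (x - T y) x + Q (T y) (x - T y)‖ ≤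
          1 / 2 * (‖Q‖ * (2 * M * r ^ 2) * (M * r) + ‖Q‖ * (M * r) * (2 * M * r ^ 2)) := by
            gcongr
            linarith
        _ = _ := by ring
    have k5 : ‖L‖ * (M * r ^ 3) ≤ 2 * M ^ 2 * ‖L‖ * r ^ 3 := by
      have : M ≤ 2 * M ^ 2 := by nlinarith
      calc ‖L‖ * (M * r ^ 3) = M * (‖L‖ * r ^ 3) := by ring
        _ ≤ 2 * M ^ 2 * (‖L‖ * r ^ 3) := by gcongr
        _ = _ := by ring
    calc _ ≤ 2 * M ^ 2 * ‖L‖ * r ^ 3 + 2 * M ^ 2 * ‖Q‖ * r ^ 3 := add_le_add (k1.trans k5) k4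
      _ = 2 * M ^ 2 * (‖L‖ + ‖Q‖) * r ^ 3 := by ring
      _ ≤ _ := by gcongr
  obtain ⟨Ee, hE⟩ : ∃ Ee : ℝ, Ee = κ ^ (2 * n) * δ + 2 * M ^ 3 * (S * r) := ⟨_, rfl⟩
  have hE0 : 0 ≤ Ee := by rw [hE]; positivity
  have i0 : IntegrableOn (fun s => ‖h2 s - Quad c L' Q' (φ p) s‖) (closedBall (φ p) r) := by
    refine Integrable.norm (hG2.sub ?_)
    exact (Quad_smooth _ _ _ _).continuous.continuousOn.integrableOn_compact
      (isCompact_closedBall _ _)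
  have hJ : ∫ s in closedBall (φ p) r, ‖h2 s - Quad c L' Q' (φ p) s‖ ≤ Ee * r ^ (n + 2) := by
    refine (int_le hr i0 hci hcl' hquad).trans ?_
    rw [hE]
    have k1 : 2 * M ^ 2 * S * r ^ 3 * (r ^ n * VB n) ≤ 2 * M ^ 3 * (S * r) * r ^ (n + 2) := by
      calc 2 * M ^ 2 * S * r ^ 3 * (r ^ n * VB n) ≤ 2 * M ^ 2 * S * r ^ 3 * (r ^ n * M) := by
            gcongr
        _ = _ := by ring
    linarith
  -- first order
  have i1 : IntegrableOn (fun s => ‖h2 s - c - L' (s - φ p)‖) (closedBall (φ p) r) := by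
    refine Integrable.norm ((hG2.sub ?_).sub ?_)
    · exact integrableOn_const (by exact measure_closedBall_lt_top.ne)
    · refine (Continuous.continuousOn ?_).integrableOn_compact (isCompact_closedBall _ _)
      exact L'.continuous.comp (continuous_id.sub continuous_const)
  have hEM : Ee ≤ 3 * M ^ 3 * S := by
    rw [hE]
    have k1 : κ ^ (2 * n) * δ ≤ M ^ 3 * S := by
      have : M ≤ M ^ 3 := le_self_pow₀ m1 (by norm_num)
      have : δ ≤ S := by rw [hS]; linarith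
      calc κ ^ (2 * n) * δ ≤ M * S := by gcongr
        _ ≤ _ := by gcongr
    have k2 : 2 * M ^ 3 * (S * r) ≤ 2 * M ^ 3 * (S * 1) := by gcongr
    linarith
  have hJ1 : ∫ s in closedBall (φ p) r, ‖h2 s - c - L' (s - φ p)‖ ≤
      4 * M ^ 3 * S * r * r ^ (n + 1) := by
    refine (int_le (b := M ^ 2 * S * r ^ 2) hr i1 i0 hJ fun s hs => ?_).trans ?_
    · have e : h2 s - c - L' (s - φ p) = (h2 s - Quad c L' Q' (φ p) s) +
          (1 / 2 : ℝ) • Q' (s - φ p) (s - φ p) := by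
        unfold Quad
        abel
      rw [e]
      refine (norm_add_le _ _).trans (add_le_add le_rfl ?_)
      rw [norm_smul]
      have : ‖(1 / 2 : ℝ)‖ = 1 / 2 := by norm_num
      rw [this]
      have k : ‖Q' (s - φ p) (s - φ p)‖ ≤ M ^ 2 * S * r * r :=
        (ContinuousLinearMap.le_opNorm₂ _ _ _).trans (by gcongr)
      nlinarith [norm_nonneg (Q' (s - φ p) (s - φ p))]
    · calc Ee * r ^ (n + 2) + M ^ 2 * S * r ^ 2 * (r ^ n * VB n) ≤
          3 * M ^ 3 * S * r ^ (n + 2) + M ^ 2 * S * r ^ 2 * (r ^ n * M) := by gcongr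
        _ = _ := by ring
  have hJ0 : ∫ s in closedBall (φ p) r, ‖h2 s - c‖ ≤ 5 * M ^ 3 * S * r * r ^ n := by
    have i2 : IntegrableOn (fun s => ‖h2 s - c‖) (closedBall (φ p) r) := by
      refine Integrable.norm (hG2.sub ?_)
      exact integrableOn_const (by exact measure_closedBall_lt_top.ne)
    refine (int_le (b := M * S * r) hr i2 i1 hJ1 fun s hs => ?_).trans ?_
    · have e : h2 s - c = (h2 s - c - L' (s - φ p)) + L' (s - φ p) := by abel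
      rw [e]
      refine (norm_add_le _ _).trans ?_
      have k : ‖L' (s - φ p)‖ ≤ M * S * r :=
        (ContinuousLinearMap.le_opNorm _ _).trans (by gcongr)
      have e2 : ‖h2 s - c - L' (s - φ p) + L' (s - φ p) - L' (s - φ p)‖ =
        ‖h2 s - c - L' (s - φ p)‖ := by congr 1; abel
      linarith
    · have k1 : r ^ (n + 1) ≤ r ^ n := pow_le_pow_of_le_one hr0 hr1 (by simp)
      have k2 : M * S * r * (r ^ n * VB n) ≤ M ^ 3 * S * r * r ^ n := by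
        have : M ^ 2 ≤ M ^ 3 := pow_le_pow_right₀ m1 (by norm_num)
        calc M * S * r * (r ^ n * VB n) ≤ M * S * r * (r ^ n * M) := by gcongr
          _ = M ^ 2 * (S * r * r ^ n) := by ring
          _ ≤ M ^ 3 * (S * r * r ^ n) := by gcongr
          _ = _ := by ring
      have k3 : 4 * M ^ 3 * S * r * r ^ (n + 1) ≤ 4 * M ^ 3 * S * r * r ^ n := by gcongr
      linarith
  have hrn : r ^ n ≠ 0 := by positivity
  have c0 : ‖Ml n h2 R2 r (φ p) - c‖ ≤ 5 * M ^ 4 * (S * r) := by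
    refine (Ml_cmean (p := φ p) c hG hr hR).trans ?_
    calc _ ≤ M * (r ^ n)⁻¹ * (5 * M ^ 3 * S * r * r ^ n) := by gcongr
      _ = _ := by field_simp
  have c1 : ∀ v : E n, ‖fderiv ℝ (Ml n h2 R2 r) (φ p) v - L' v‖ ≤
      4 * M ^ 4 * (S * r) * ‖v‖ := by
    intro v
    refine (Ml_dmean (p := φ p) c L' v hG hr hR).trans ?_
    calc _ ≤ ‖v‖ * M * (r ^ (n + 1))⁻¹ * (4 * M ^ 3 * S * r * r ^ (n + 1)) := by gcongr
      _ = _ := by field_simp
  have c2 : ∀ u v : E n, ‖fderiv ℝ (fderiv ℝ (Ml n h2 R2 r)) (φ p) u v - Q' u v‖ ≤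
      MDD n * Ee * (‖u‖ * ‖v‖) := by
    intro u v
    refine (Ml_ddmean (p := φ p) c L' hQ's u v hG hr hR).trans ?_
    calc _ ≤ ‖u‖ * ‖v‖ * MDD n * (r ^ (n + 2))⁻¹ * (Ee * r ^ (n + 2)) := by gcongr
      _ = _ := by field_simp
  have hms := Ml_smooth (R := R2) (r := r) hG hr
  have hφv : ∀ v, ‖fderiv ℝ φ p v‖ ≤ κ ^ 2 * ‖v‖ := fun v =>
    (ContinuousLinearMap.le_opNorm _ _).trans (by gcongr)
  have M46 : M ^ 4 ≤ M ^ 6 := pow_le_pow_right₀ m1 (by norm_num)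
  have M56 : M ^ 5 ≤ M ^ 6 := pow_le_pow_right₀ m1 (by norm_num)
  rw [← hS]
  refine ⟨c0.trans (by gcongr; norm_num), ?_, ?_⟩
  · refine ContinuousLinearMap.opNorm_le_bound _ (by positivity) fun v => ?_
    have e1 : fderiv ℝ (fun z => Ml n h2 R2 r (φ z)) p =
        (fderiv ℝ (Ml n h2 R2 r) (φ p)).comp (fderiv ℝ φ p) :=
      fderiv_comp p (hms.contDiffAt.differentiableAt (by simp)) (hφs.differentiableAt (by simp))
    have e2 : L v = L' (fderiv ℝ φ p v) := by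
      rw [hL', ContinuousLinearMap.comp_apply, hTφ]
    rw [sub_apply, e1, ContinuousLinearMap.comp_apply, e2]
    refine (c1 _).trans ?_
    calc 4 * M ^ 4 * (S * r) * ‖fderiv ℝ φ p v‖ ≤ 4 * M ^ 4 * (S * r) * (M * ‖v‖) := by
          gcongr
          exact (hφv v).trans (by gcongr)
      _ = 4 * M ^ 5 * (S * r) * ‖v‖ := by ring
      _ ≤ 6 * M ^ 6 * (S * r) * ‖v‖ := by
          have : 4 * M ^ 5 ≤ 6 * M ^ 6 := by nlinarith [pow_nonneg hM0 5]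
          gcongr
  · refine ContinuousLinearMap.opNorm_le_bound₂ _ (by positivity) fun u v => ?_
    have e2 : Q u v = Q' (fderiv ℝ φ p u) (fderiv ℝ φ p v) +
        L' (fderiv ℝ (fderiv ℝ φ) p u v) := by
      rw [hQ'a, hL', ContinuousLinearMap.comp_apply, hTφ, hTφ, add_assoc, ← map_add, hT2,
        map_zero, add_zero]
    rw [sub_apply, sub_apply, dd_comp hφs hms, e2]
    have e3 : ∀ a b c' d : W, a + b - (c' + d) = (a - c') + (b - d) := fun a b c' d => by abel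
    rw [e3]
    refine (norm_add_le _ _).trans ?_
    have k1 := c2 (fderiv ℝ φ p u) (fderiv ℝ φ p v)
    have k2 := c1 (fderiv ℝ (fderiv ℝ φ) p u v)
    have k3 : ‖fderiv ℝ (fderiv ℝ φ) p u v‖ ≤ M * ‖u‖ * ‖v‖ :=
      (ContinuousLinearMap.le_opNorm₂ _ _ _).trans (by gcongr)
    have k4 : MDD n * Ee * (‖fderiv ℝ φ p u‖ * ‖fderiv ℝ φ p v‖) ≤
        (MDD n * κ ^ (2 * n + 4) * δ + 2 * M ^ 6 * (S * r)) * (‖u‖ * ‖v‖) := by
      calc MDD n * Ee * (‖fderiv ℝ φ p u‖ * ‖fderiv ℝ φ p v‖) ≤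
          MDD n * Ee * ((κ ^ 2 * ‖u‖) * (κ ^ 2 * ‖v‖)) := by
            gcongr
            · exact hφv u
            · exact hφv v
        _ = (MDD n * κ ^ (2 * n + 4) * δ + MDD n * (κ ^ 2) * (κ ^ 2) * (2 * M ^ 3 * (S * r))) *
            (‖u‖ * ‖v‖) := by
            rw [hE, pow_add]
            ring
        _ ≤ (MDD n * κ ^ (2 * n + 4) * δ + M * M * M * (2 * M ^ 3 * (S * r))) *
            (‖u‖ * ‖v‖) := by gcongr
        _ = _ := by ring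
    have k5 : 4 * M ^ 4 * (S * r) * ‖fderiv ℝ (fderiv ℝ φ) p u v‖ ≤
        4 * M ^ 6 * (S * r) * (‖u‖ * ‖v‖) := by
      calc 4 * M ^ 4 * (S * r) * ‖fderiv ℝ (fderiv ℝ φ) p u v‖ ≤
          4 * M ^ 4 * (S * r) * (M * ‖u‖ * ‖v‖) := by gcongr
        _ = 4 * M ^ 5 * (S * r) * (‖u‖ * ‖v‖) := by ring
        _ ≤ _ := by gcongr
    calc _ ≤ (MDD n * κ ^ (2 * n + 4) * δ + 2 * M ^ 6 * (S * r)) * (‖u‖ * ‖v‖) +
          4 * M ^ 6 * (S * r) * (‖u‖ * ‖v‖) :=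
          add_le_add (k1.trans k4) (k2.trans k5)
      _ = _ := by ring

end Pool.Agent.N824.C2
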