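import Pool.Agent.N824.C2.Loc2

/-!
# Smoothing of families of maps which are quadratic in the mean
-/

set_option autoImplicit false
set_option maxSynthPendingDepth 3

open Set Filter Topology Metric Function MeasureTheory
open scoped Manifold ContDiff Convolution

set_option linter.unusedSectionVars false

noncomputable section

namespace Pool.Agent.N824.C2

open Pool.Agent.Y522 Pool.Agent.Y954.SH Pool.Agent.N824.CR Pool.Agent.N824.CN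
open Pool.Agent.N824.CJ

variable {n : ℕ} {W : Type} [NormedAddCommGroup W] [NormedSpace ℝ W] [FiniteDimensional ℝ W]
  {X : Type} [TopologicalSpace X] [ChartedSpace (E n) X]

/-- mean estimate with the quadratic map with the 2-jet `c`, `L`, `Q` at `p` -/
def MEst2 (n : ℕ) {W : Type} [NormedAddCommGroup W] [NormedSpace ℝ W] (h : E n → W) (p : E n)
    (κ r δ : ℝ) (L : E n →L[ℝ] W) (Q : E n →L[ℝ] E n →L[ℝ] W) (c : W) : Prop :=
  IntegrableOn h (closedBall p (κ ^ 2 * r)) ∧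
    ∫ q in closedBall p (κ ^ 2 * r), ‖h q - Quad c L Q p q‖ ≤ δ * r ^ (n + 2)

/-- coarse 2-jets -/
def CReg2 (n : ℕ) {X : Type} [TopologicalSpace X] [ChartedSpace (E n) X]
    {W : Type} [NormedAddCommGroup W] [NormedSpace ℝ W]
    (d : X → X → ℝ) (S : Set ℝ) (F : ℝ → X → W)
    (P : (E n → X) → E n → (E n →L[ℝ] W) → (E n →L[ℝ] E n →L[ℝ] W) → ℝ → ℝ → Prop)
    (x : X) : Prop :=
  ∃ (A : E n → X) (κ ρ : ℝ) (τ : ℝ → ℝ), A 0 = x ∧ LD n A 0 ∧ 1 ≤ κ ∧ 0 < ρ ∧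
    Tendsto τ (𝓝[>] 0) (𝓝 0) ∧
    (∀ p q, ‖p‖ < ρ → ‖q‖ < ρ →
      d (A p) (A q) ≤ κ * ‖p - q‖ ∧ ‖p - q‖ ≤ κ * d (A p) (A q)) ∧
    ∀ p, ‖p‖ < ρ → ∀ r ∈ S, 0 < r → r < ρ →
      ∃ (L : E n →L[ℝ] W) (Q : E n →L[ℝ] E n →L[ℝ] W) (δ : ℝ) (c : W), 0 ≤ δ ∧
        (∀ u v, Q u v = Q v u) ∧ (‖L‖ + ‖Q‖) * r ≤ δ * τ r ∧
        MEst2 n (fun z => F r (A z)) p κ r δ L Q c ∧ P A p L Q κ δ

/-- the smooth map `F` has at `x` a 2-jet allowed by `P`, up to errors -/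
def Reg2 (n : ℕ) {X : Type} [TopologicalSpace X] [ChartedSpace (E n) X]
    {W : Type} [NormedAddCommGroup W] [NormedSpace ℝ W]
    (P : (E n → X) → E n → (E n →L[ℝ] W) → (E n →L[ℝ] E n →L[ℝ] W) → ℝ → ℝ → Prop)
    (F : X → W) (x : X) : Prop :=
  ∃ (A : E n → X) (p : E n) (L : E n →L[ℝ] W) (Q : E n →L[ℝ] E n →L[ℝ] W) (κ δ : ℝ),
    A p = x ∧ LD n A p ∧ 1 ≤ κ ∧ 0 ≤ δ ∧ P A p L Q κ δ ∧
    ‖fderiv ℝ (fun z => F (A z)) p - L‖ ≤ δ ∧
    ‖fderiv ℝ (fderiv ℝ fun z => F (A z)) p - Q‖ ≤ C2 n * κ ^ (2 * n + 4) * δ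

theorem CReg2.exists_cht2 {d : X → X → ℝ} {S : Set ℝ} {F : ℝ → X → W}
    {P : (E n → X) → E n → (E n →L[ℝ] W) → (E n →L[ℝ] E n →L[ℝ] W) → ℝ → ℝ → Prop} {x : X}
    (h : CReg2 n d S F P x) {Z : Set X} (hZ : Zᶜ ∈ 𝓝 x) :
    ∃ (A : E n → X) (B : X → E n) (R κ : ℝ) (τ : ℝ → ℝ),
      x ∈ A '' ball 0 R ∧ Disjoint (A '' closedBall 0 R) Z ∧
      IsCht n d A B R κ ∧ Tendsto τ (𝓝[>] 0) (𝓝 0) ∧
      (∀ r ∈ S, 0 < r → r < R → IntegrableOn (fun z => F r (A z)) (closedBall 0 R)) ∧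
      ∀ p, ‖p‖ < R → ∀ r ∈ S, 0 < r → r < R →
        ∃ (L : E n →L[ℝ] W) (Q : E n →L[ℝ] E n →L[ℝ] W) (δ : ℝ) (c : W), 0 ≤ δ ∧
          (∀ u v, Q u v = Q v u) ∧ (‖L‖ + ‖Q‖) * r ≤ δ * τ r ∧
          MEst2 n (fun z => F r (A z)) p κ r δ L Q c ∧ P A p L Q κ δ := by
  classical
  obtain ⟨A, κ, ρ, τ, hA0, hA, hκ, hρ, hτ, hd, hAA⟩ := h
  obtain ⟨u, hu, hinj⟩ := hA.eventually_injOn
  have hZ' : A ⁻¹' Zᶜ ∈ 𝓝 0 := hA.continuousAt.preimage_mem_nhds (by rwa [hA0])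
  obtain ⟨r1, hr1, hball⟩ := (nhds_basis_closedBall (x := (0 : E n))).mem_iff.mp
    (Filter.inter_mem (Filter.inter_mem hu hA.eventually) hZ')
  have hinj' : InjOn A (closedBall 0 r1) := hinj.mono fun z hz => (hball hz).1.1
  have hlt : ∀ z : E n, ‖z‖ ≤ min r1 (ρ / 2) → ‖z‖ < ρ := fun z hz => by
    have := hz.trans (min_le_right _ _)
    linarith
  refine ⟨A, invFunOn A (closedBall 0 r1), min r1 (ρ / 2), κ, τ, ?_, ?_, ?_, hτ, ?_, ?_⟩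
  · refine ⟨0, ?_, hA0⟩
    rw [mem_ball_zero_iff, norm_zero]
    exact lt_min hr1 (by linarith)
  · rw [disjoint_left]
    rintro _ ⟨z, hz, rfl⟩
    refine (hball (?_ : z ∈ closedBall (0 : E n) r1)).2
    rw [mem_closedBall_zero_iff] at hz ⊢
    exact hz.trans (min_le_left _ _)
  · have hle : ∀ z : E n, ‖z‖ ≤ min r1 (ρ / 2) → z ∈ closedBall (0 : E n) r1 := fun z hz => by
      rw [mem_closedBall_zero_iff]
      exact hz.trans (min_le_left _ _)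
    exact {
      pos := lt_min hr1 (by linarith)
      one := hκ
      ld := fun z hz => (hball (hle z hz)).1.2
      left := fun z hz => hinj'.leftInvOn_invFunOn (hle z hz)
      up := fun p q hp hq => (hd p q (hlt p hp) (hlt q hq)).1
      low := fun p q hp hq => (hd p q (hlt p hp) (hlt q hq)).2 }
  · intro r hr h0 hrR
    refine LocallyIntegrableOn.integrableOn_isCompact ?_ (isCompact_closedBall _ _)
    intro p hp
    rw [mem_closedBall_zero_iff] at hp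
    have hrρ : r < ρ := by
      have := hrR.trans_le (min_le_right _ _)
      linarith
    obtain ⟨L, Q, δ, c, -, -, -, ⟨hint, -⟩, -⟩ := hAA p (hlt p hp) r hr h0 hrρ
    refine ⟨closedBall p (κ ^ 2 * r), mem_nhdsWithin_of_mem_nhds ?_, hint⟩
    exact closedBall_mem_nhds p (by positivity)
  · intro p hp r hr h0 hrR
    refine hAA p (hlt p hp.le) r hr h0 ?_
    have := hrR.trans_le (min_le_right _ _)
    linarith

/-- smoothing of coarse jets, relative version -/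
theorem glob2 [T2Space X] [LocallyCompactSpace X] [SecondCountableTopology X]
    [IsManifold (𝓡 n) ∞ X] (F : ℝ → X → W)
    (d : X → X → ℝ)
    (P : (E n → X) → E n → (E n →L[ℝ] W) → (E n →L[ℝ] E n →L[ℝ] W) → ℝ → ℝ → Prop)
    (S : Set ℝ) (hS : (0 : ℝ) ∈ closure (S ∩ Ioi 0)) (U Z : Set X) (hU : IsOpen U)
    (hZ : IsClosed Z) (hZU : Z ⊆ U) (hK : IsCompact Uᶜ) (hF0 : ∀ r ∈ S, ∀ x ∈ U, F r x = 0)
    (hF : ∀ x, x ∉ U → CReg2 n d S F P x) :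
    ∃ (F' : X → W) (C : Set X), IsCompact C ∧ Disjoint C Z ∧ (∀ x, x ∉ C → F' x = 0) ∧
      (∀ x, ContMDiffAt (𝓡 n) 𝓘(ℝ, W) ∞ F' x) ∧
      ∀ x, Reg2 n P F' x ∨ (x ∈ U ∧ F' =ᶠ[𝓝 x] fun _ => 0) := by
  classical
  have hch := fun x : {x : X // x ∉ U} => (hF x.1 x.2).exists_cht2
    (hZ.isOpen_compl.mem_nhds fun h => x.2 (hZU h))
  choose A B R κ τ hxA hAZ hcht hτ hint hcm using hch
  obtain ⟨t, ht⟩ := hK.elim_finite_subcover (fun x : {x : X // x ∉ U} => A x '' ball 0 (R x))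
    (fun x => (hcht x).isOpen) (fun x hx => mem_iUnion.2 ⟨⟨x, hx⟩, hxA ⟨x, hx⟩⟩)
  have hUo : IsOpen (⋃ i : t, A i '' ball 0 (R i)) := isOpen_iUnion fun i => (hcht i).isOpen
  have ht' : Uᶜ ⊆ ⋃ i : t, A i '' ball 0 (R i) := by
    intro x hx
    obtain ⟨i, hi⟩ := mem_iUnion.1 (ht hx)
    obtain ⟨hi1, hi2⟩ := mem_iUnion.1 hi
    exact mem_iUnion.2 ⟨⟨i, hi1⟩, hi2⟩
  obtain ⟨K', hK', hKK', hK'U⟩ := exists_compact_between hK hUo ht'
  obtain ⟨f, hf⟩ := SmoothPartitionOfUnity.exists_isSubordinate (𝓡 n) hK'.isClosed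
    (fun i : t => A i '' ball 0 (R i)) (fun i => (hcht i).isOpen) hK'U
  have hfam : FamK n t d F S (fun i => A i) (fun i => B i) (fun i => R i)
      (fun i => κ i) (fun i x => f i x) :=
    { cht := fun i => hcht i
      iF := fun i => hint i
      sm := fun i => (f i).contMDiff
      nn := fun i x => f.nonneg i x
      le := fun x => by
        rw [← finsum_eq_sum_of_fintype]
        exact f.sum_le_one x
      sup := fun i => hf i }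
  have hsum : ∀ x ∈ K', ∑ i, f i x = 1 := fun x hx => by
    rw [← finsum_eq_sum_of_fintype]
    exact f.sum_eq_one hx
  obtain ⟨C, hC⟩ : ∃ C, C = ⋃ i : t, tsupport (f i) := ⟨_, rfl⟩
  have hCc : IsCompact C := by
    rw [hC]
    refine isCompact_iUnion fun i => ?_
    refine ((isCompact_closedBall (0 : E n) (R i)).image_of_continuousOn
      (hcht i).contOn).of_isClosed_subset (isClosed_tsupport _) ?_
    exact (hf i).trans (image_mono ball_subset_closedBall)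
  have hCZ : Disjoint C Z := by
    rw [hC, disjoint_iUnion_left]
    intro i
    exact (hAZ i).mono_left ((hf i).trans (image_mono ball_subset_closedBall))
  obtain ⟨G, hG⟩ : ∃ G : ℝ → X → W, G = fun r x => GJ (F r)
    (fun i : t => A i) (fun i => B i)
    (fun i => R i) (fun i x => f i x) r x := ⟨_, rfl⟩
  have hloc : ∀ x0 ∈ C, ∀ᶠ z : ℝ × X in 𝓝[S ∩ Ioi 0] (0 : ℝ) ×ˢ 𝓝 x0,
      ContMDiffAt (𝓡 n) 𝓘(ℝ, W) ∞ (G z.1) z.2 ∧
        (Reg2 n P (G z.1) z.2 ∨ (z.2 ∈ U ∧ G z.1 =ᶠ[𝓝 z.2] fun _ => 0)) := by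
    intro x0 _
    by_cases hx0 : x0 ∈ U
    · have hz := hfam.zero hU hx0 hF0
      have hU' : ∀ᶠ z : ℝ × X in 𝓝[S ∩ Ioi 0] (0 : ℝ) ×ˢ 𝓝 x0, z.2 ∈ U :=
        (hU.eventually_mem hx0).prod_inr _
      filter_upwards [hz, hU'] with z h1 h2
      have h3 : G z.1 =ᶠ[𝓝 z.2] fun _ => 0 := by
        filter_upwards [h1] with y hy
        rw [hG]
        exact hy
      exact ⟨contMDiffAt_const.congr_of_eventuallyEq h3, Or.inr ⟨h2, h3⟩⟩
    · obtain ⟨i1, hi1, hev⟩ := hfam.loc2 (x0 := x0) (by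
        filter_upwards [isOpen_interior.mem_nhds (hKK' hx0)] with x hx
        exact hsum x (interior_subset hx))
      have l0 : ∀ᶠ z : ℝ × X in 𝓝[S ∩ Ioi 0] (0 : ℝ) ×ˢ 𝓝 x0, z.1 ∈ S ∩ Ioi 0 := by
        have : ∀ᶠ r in 𝓝[S ∩ Ioi 0] (0 : ℝ), r ∈ S ∩ Ioi 0 := self_mem_nhdsWithin
        exact this.prod_inl _
      filter_upwards [hev (τ i1) (hτ i1), l0] with z hz hz0
      obtain ⟨z1, z2, z3, z4⟩ := hz
      rw [hG]
      obtain ⟨L, Q, δ, c, hδ, hQs, hL, ⟨hA1, hA2⟩, hQ⟩ := hcm i1 (B i1 z.2)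
        ((hcht i1).mem z2) z.1 hz0.1 hz0.2 z1
      obtain ⟨z5, z6⟩ := z4 δ L Q c hδ hQs hL hA1 hA2
      exact ⟨z3.self_of_nhds, Or.inl ⟨A i1, B i1 z.2, L, Q, κ i1, δ,
        (hcht i1).right z2, (hcht i1).ld _ ((hcht i1).mem z2).le, (hcht i1).one, hδ, hQ,
        z5, z6⟩⟩
  have hne : (𝓝[S ∩ Ioi 0] (0 : ℝ)).NeBot := mem_closure_iff_nhdsWithin_neBot.1 hS
  have hall : ∀ᶠ r in 𝓝[S ∩ Ioi 0] (0 : ℝ), ∀ x ∈ C,
      ContMDiffAt (𝓡 n) 𝓘(ℝ, W) ∞ (G r) x ∧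
        (Reg2 n P (G r) x ∨ (x ∈ U ∧ G r =ᶠ[𝓝 x] fun _ => 0)) := by
    have h1 : {z : ℝ × X | ContMDiffAt (𝓡 n) 𝓘(ℝ, W) ∞ (G z.1) z.2 ∧
        (Reg2 n P (G z.1) z.2 ∨ (z.2 ∈ U ∧ G z.1 =ᶠ[𝓝 z.2] fun _ => 0))} ∈
        𝓝[S ∩ Ioi 0] (0 : ℝ) ×ˢ 𝓝ˢ C := hCc.mem_prod_nhdsSet_of_forall hloc
    obtain ⟨u, hu, v, hv, huv⟩ := Filter.mem_prod_iff.1 h1
    filter_upwards [hu] with r hr x hx
    exact huv (mk_mem_prod hr (subset_of_mem_nhdsSet hv hx))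
  obtain ⟨r, hr⟩ := hall.exists
  have hCV : ∀ x, x ∉ C → x ∈ U := by
    intro x hx
    by_contra h
    apply hx
    have h2 := hsum x (interior_subset (hKK' h))
    have h3 : ∃ i : t, f i x ≠ 0 := by
      by_contra hcon
      push Not at hcon
      simp [hcon] at h2
    obtain ⟨i, hi⟩ := h3
    rw [hC]
    exact mem_iUnion.2 ⟨i, subset_tsupport _ hi⟩
  have hoff : ∀ x, x ∉ C → G r x = 0 := by
    intro x hx
    rw [hG]
    show GJ (F r) _ _ _ _ r x = 0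
    unfold GJ
    refine Finset.sum_eq_zero fun i _ => ?_
    have h0 : f i x = 0 := by
      by_contra h
      apply hx
      rw [hC]
      exact mem_iUnion.2 ⟨i, subset_tsupport _ h⟩
    beta_reduce
    rw [h0, zero_smul]
  have hnear : ∀ x, x ∉ C → G r =ᶠ[𝓝 x] fun _ => 0 := by
    intro x hx
    filter_upwards [hCc.isClosed.isOpen_compl.mem_nhds hx] with y hy
    exact hoff y hy
  refine ⟨G r, C, hCc, hCZ, hoff, fun x => ?_, fun x => ?_⟩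
  · by_cases hx : x ∈ C
    · exact (hr x hx).1
    · exact contMDiffAt_const.congr_of_eventuallyEq (hnear x hx)
  · by_cases hx : x ∈ C
    · exact (hr x hx).2
    · exact Or.inr ⟨hCV x hx, hnear x hx⟩

end Pool.Agent.N824.C2
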