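import Pool.Agent.N824.C2.Taylor

/-!
# Second order estimates for patched maps
-/

set_option autoImplicit false
set_option maxSynthPendingDepth 3

open Set Filter Topology Metric Function MeasureTheory
open scoped Manifold ContDiff Convolution

set_option linter.unusedSectionVars false

noncomputable section

namespace Pool.Agent.N824.C2

open Pool.Agent.Y522 Pool.Agent.Y954.SH Pool.Agent.N824.CR Pool.Agent.N824.CN
open Pool.Agent.N824.CJ

variable {n : ℕ} {W : Type} [NormedAddCommGroup W] [NormedSpace ℝ W] [FiniteDimensional ℝ W]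

lemma Quad_dd (c : W) (L : E n →L[ℝ] W) {Q : E n →L[ℝ] E n →L[ℝ] W}
    (hQ : ∀ u v, Q u v = Q v u) (p s u v : E n) :
    fderiv ℝ (fderiv ℝ (Quad c L Q p)) s u v = Q u v := by
  rw [← fd_fd (Quad_smooth c L Q p).contDiffAt]
  have h1 : (fun s => fderiv ℝ (Quad c L Q p) s v) = fun s => L v + Q (s - p) v := by
    funext s
    rw [Quad_fderiv c L hQ]
  rw [h1]
  have h2 : HasFDerivAt (fun s : E n => L v + Q (s - p) v) (Q.flip v) s := by
    have h3 : HasFDerivAt (fun s : E n => (Q.flip v) (s - p))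
        ((Q.flip v).comp (ContinuousLinearMap.id ℝ (E n))) s :=
      (Q.flip v).hasFDerivAt.comp s ((hasFDerivAt_id s).sub_const p)
    exact h3.const_add _
  rw [h2.fderiv, ContinuousLinearMap.flip_apply]

/-- the second derivative of a finite sum -/
lemma dd_sum {ι : Type} (s : Finset ι) {g : ι → E n → W} {p : E n}
    (hg : ∀ i ∈ s, ContDiffAt ℝ ∞ (g i) p) (u v : E n) :
    fderiv ℝ (fun z => ∑ i ∈ s, g i z) p v = ∑ i ∈ s, fderiv ℝ (g i) p v ∧
    fderiv ℝ (fderiv ℝ fun z => ∑ i ∈ s, g i z) p u v =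
      ∑ i ∈ s, fderiv ℝ (fderiv ℝ (g i)) p u v := by
  have hH : ContDiffAt ℝ ∞ (fun z => ∑ i ∈ s, g i z) p := ContDiffAt.sum hg
  have hev : ∀ᶠ y in 𝓝 p, ∀ i ∈ s, ContDiffAt ℝ 1 (g i) y :=
    (Finset.eventually_all s).2 fun i hi =>
      ((hg i hi).of_le (m := 1) (by simp)).eventually (by simp)
  have h1 : (fun y => fderiv ℝ (fun z => ∑ i ∈ s, g i z) y v) =ᶠ[𝓝 p]
      fun y => ∑ i ∈ s, fderiv ℝ (g i) y v := by
    filter_upwards [hev] with y hy
    have h2 : HasFDerivAt (fun z => ∑ i ∈ s, g i z) (∑ i ∈ s, fderiv ℝ (g i) y) y :=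
      HasFDerivAt.fun_sum fun i hi => ((hy i hi).differentiableAt (by simp)).hasFDerivAt
    rw [h2.fderiv, sum_apply]
  refine ⟨h1.self_of_nhds, ?_⟩
  rw [← fd_fd hH, h1.fderiv_eq]
  have h3 : HasFDerivAt (fun y => ∑ i ∈ s, fderiv ℝ (g i) y v)
      (∑ i ∈ s, (fderiv ℝ (fderiv ℝ (g i)) p).flip v) p := by
    refine HasFDerivAt.fun_sum fun i hi => ?_
    have h5 : HasFDerivAt (fderiv ℝ (g i)) (fderiv ℝ (fderiv ℝ (g i)) p) p :=
      (((hg i hi).fderiv_right (m := ∞) (by simp)).differentiableAt (by simp)).hasFDerivAt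
    have h6 := h5.clm_apply (hasFDerivAt_const v p)
    have h7 : (fderiv ℝ (g i) p).comp (0 : E n →L[ℝ] E n) +
        (fderiv ℝ (fderiv ℝ (g i)) p).flip v = (fderiv ℝ (fderiv ℝ (g i)) p).flip v := by
      rw [ContinuousLinearMap.comp_zero, zero_add]
    rw [h7] at h6
    exact h6
  rw [h3.fderiv, sum_apply]
  rfl

/-- the second order estimate for a patched map -/
theorem patch2 {ι : Type} (s : Finset ι) {χ : ι → E n → ℝ} {g : ι → E n → W} {p : E n}
    {L : E n →L[ℝ] W} {Q : E n →L[ℝ] E n →L[ℝ] W} (hQ : ∀ u v, Q u v = Q v u) {c : W}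
    {e a D : ℝ}
    (hχ : ∀ i ∈ s, ContDiffAt ℝ ∞ (χ i) p) (hg : ∀ i ∈ s, ContDiffAt ℝ ∞ (g i) p)
    (h0 : ∀ i ∈ s, 0 ≤ χ i p) (h1 : ∀ᶠ z in 𝓝 p, ∑ i ∈ s, χ i z = 1)
    (h2 : ∀ i ∈ s, ‖g i p - c‖ ≤ e) (h3 : ∀ i ∈ s, ‖fderiv ℝ (g i) p - L‖ ≤ e)
    (h4 : ∀ i ∈ s, ‖fderiv ℝ (fderiv ℝ (g i)) p - Q‖ ≤ a)
    (h5 : ∀ i ∈ s, ‖fderiv ℝ (χ i) p‖ ≤ D) (h6 : ∀ i ∈ s, ‖fderiv ℝ (fderiv ℝ (χ i)) p‖ ≤ D)
    (he : 0 ≤ e) (ha : 0 ≤ a) (hD : 0 ≤ D) :
    ‖fderiv ℝ (fun z => ∑ i ∈ s, χ i z • g i z) p - L‖ ≤ e + s.card * (D * e) ∧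
      ‖fderiv ℝ (fderiv ℝ fun z => ∑ i ∈ s, χ i z • g i z) p - Q‖ ≤
        a + s.card * (3 * D * e) := by
  have e1 : ∑ i ∈ s, χ i p = 1 := h1.self_of_nhds
  have hqs := Quad_smooth c L Q p
  obtain ⟨w, hw⟩ : ∃ w : ι → E n → W, w = fun i z => g i z - Quad c L Q p z := ⟨_, rfl⟩
  have hws : ∀ i ∈ s, ContDiffAt ℝ ∞ (w i) p := fun i hi => by
    rw [hw]
    exact (hg i hi).sub hqs.contDiffAt
  have hw0 : ∀ i ∈ s, ‖w i p‖ ≤ e := fun i hi => by
    have : w i p = g i p - c := by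
      rw [hw]
      simp [Quad]
    rw [this]
    exact h2 i hi
  have hw1 : ∀ i ∈ s, ∀ v, ‖fderiv ℝ (w i) p v‖ ≤ e * ‖v‖ := fun i hi v => by
    have h7 : HasFDerivAt (w i) (fderiv ℝ (g i) p - fderiv ℝ (Quad c L Q p) p) p := by
      rw [hw]
      exact ((hg i hi).differentiableAt (by simp)).hasFDerivAt.sub
        (hqs.contDiffAt.differentiableAt (by simp)).hasFDerivAt
    have h8 : fderiv ℝ (w i) p v = (fderiv ℝ (g i) p - L) v := by
      rw [h7.fderiv, sub_apply, sub_apply, Quad_fderiv c L hQ]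
      simp
    rw [h8]
    exact (ContinuousLinearMap.le_opNorm _ _).trans (by gcongr; exact h3 i hi)
  have hw2 : ∀ i ∈ s, ∀ u v, ‖fderiv ℝ (fderiv ℝ (w i)) p u v‖ ≤ a * ‖u‖ * ‖v‖ :=
      fun i hi u v => by
    have hsum := dd_sum (p := p) {true, false} (g := fun b : Bool => if b then g i else
      fun z => -Quad c L Q p z) (fun b _ => by
        cases b
        · simpa using hqs.contDiffAt.neg
        · simpa using hg i hi) u v
    have hfun : (fun z => ∑ b ∈ ({true, false} : Finset Bool), (if b then g i else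
      fun z => -Quad c L Q p z) z) = w i := by
      funext z
      rw [hw]
      simp [sub_eq_add_neg]
    rw [hfun] at hsum
    have hneg : fderiv ℝ (fderiv ℝ fun z => -Quad c L Q p z) p u v = -Q u v := by
      have k1 : (fun z => -Quad c L Q p z) = Quad (-c) (-L) (-Q) p := by
        funext z
        unfold Quad
        simp only [neg_apply, smul_neg]
        abel
      rw [k1, Quad_dd _ _ (fun u v => by simp only [neg_apply]; rw [hQ])]
      simp only [neg_apply]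
    have h8 : fderiv ℝ (fderiv ℝ (w i)) p u v = (fderiv ℝ (fderiv ℝ (g i)) p - Q) u v := by
      rw [hsum.2]
      simp only [sub_apply]
      rw [Finset.sum_pair (by simp)]
      simp only [if_true, Bool.false_eq_true, if_false]
      rw [hneg, sub_eq_add_neg]
    rw [h8]
    refine (ContinuousLinearMap.le_opNorm₂ _ _ _).trans ?_
    have := h4 i hi
    gcongr
  obtain ⟨G, hG⟩ : ∃ G : ι → E n → W, G = fun i z => χ i z • w i z := ⟨_, rfl⟩
  have hGs : ∀ i ∈ s, ContDiffAt ℝ ∞ (G i) p := fun i hi => by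
    rw [hG]
    exact (hχ i hi).smul (hws i hi)
  have hev : (fun z => ∑ i ∈ s, χ i z • g i z) =ᶠ[𝓝 p]
      fun z => (∑ i ∈ s, G i z) + Quad c L Q p z := by
    filter_upwards [h1] with z hz
    rw [hG, hw]
    simp only [smul_sub]
    rw [Finset.sum_sub_distrib, ← Finset.sum_smul, hz, one_smul]
    abel
  have hSs : ContDiffAt ℝ ∞ (fun z => ∑ i ∈ s, G i z) p := ContDiffAt.sum hGs
  have hd1 : ∀ v, (fderiv ℝ (fun z => ∑ i ∈ s, χ i z • g i z) p - L) v =
      ∑ i ∈ s, fderiv ℝ (G i) p v := by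
    intro v
    have h7 : HasFDerivAt (fun z => (∑ i ∈ s, G i z) + Quad c L Q p z)
        (fderiv ℝ (fun z => ∑ i ∈ s, G i z) p + fderiv ℝ (Quad c L Q p) p) p :=
      (hSs.differentiableAt (by simp)).hasFDerivAt.add
        (hqs.contDiffAt.differentiableAt (by simp)).hasFDerivAt
    rw [hev.fderiv_eq, sub_apply, h7.fderiv, add_apply, Quad_fderiv c L hQ,
      (dd_sum s hGs v v).1]
    simp
  have hd2 : ∀ u v, (fderiv ℝ (fderiv ℝ fun z => ∑ i ∈ s, χ i z • g i z) p - Q) u v =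
      ∑ i ∈ s, fderiv ℝ (fderiv ℝ (G i)) p u v := by
    intro u v
    have hev' : (fderiv ℝ fun z => ∑ i ∈ s, χ i z • g i z) =ᶠ[𝓝 p]
        fderiv ℝ fun z => (∑ i ∈ s, G i z) + Quad c L Q p z := hev.fderiv
    have hev2 : (fderiv ℝ fun z => (∑ i ∈ s, G i z) + Quad c L Q p z) =ᶠ[𝓝 p]
        fun y => fderiv ℝ (fun z => ∑ i ∈ s, G i z) y + fderiv ℝ (Quad c L Q p) y := by
      have k1 : ∀ᶠ y in 𝓝 p, ContDiffAt ℝ 1 (fun z => ∑ i ∈ s, G i z) y :=
        (hSs.of_le (m := 1) (by simp)).eventually (by simp)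
      filter_upwards [k1] with y hy
      have h7 : HasFDerivAt (fun z => (∑ i ∈ s, G i z) + Quad c L Q p z)
          (fderiv ℝ (fun z => ∑ i ∈ s, G i z) y + fderiv ℝ (Quad c L Q p) y) y :=
        (hy.differentiableAt (by simp)).hasFDerivAt.add
          (hqs.contDiffAt.differentiableAt (by simp)).hasFDerivAt
      exact h7.fderiv
    have h8 : HasFDerivAt
        (fun y => fderiv ℝ (fun z => ∑ i ∈ s, G i z) y + fderiv ℝ (Quad c L Q p) y)
        (fderiv ℝ (fderiv ℝ fun z => ∑ i ∈ s, G i z) p +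
          fderiv ℝ (fderiv ℝ (Quad c L Q p)) p) p :=
      ((hSs.fderiv_right (m := ∞) (by simp)).differentiableAt (by simp)).hasFDerivAt.add
        ((hqs.contDiffAt.fderiv_right (m := ∞) (by simp)).differentiableAt
          (by simp)).hasFDerivAt
    rw [hev'.fderiv_eq, hev2.fderiv_eq, h8.fderiv, sub_apply, sub_apply, add_apply, add_apply,
      Quad_dd c L hQ, (dd_sum s hGs u v).2]
    abel
  have hsc : (0 : ℝ) ≤ s.card := Nat.cast_nonneg _
  constructor
  · refine ContinuousLinearMap.opNorm_le_bound _ (by positivity) fun v => ?_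
    rw [hd1]
    have k1 : ∀ i ∈ s, ‖fderiv ℝ (G i) p v‖ ≤ χ i p * (e * ‖v‖) + D * e * ‖v‖ := by
      intro i hi
      have h7 : HasFDerivAt (G i) (χ i p • fderiv ℝ (w i) p +
          (fderiv ℝ (χ i) p).smulRight (w i p)) p := by
        rw [hG]
        exact ((hχ i hi).differentiableAt (by simp)).hasFDerivAt.smul
          ((hws i hi).differentiableAt (by simp)).hasFDerivAt
      rw [h7.fderiv, add_apply, smul_apply, ContinuousLinearMap.smulRight_apply]
      refine (norm_add_le _ _).trans (add_le_add ?_ ?_)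
      · rw [norm_smul, Real.norm_of_nonneg (h0 i hi)]
        exact mul_le_mul_of_nonneg_left (hw1 i hi v) (h0 i hi)
      · rw [norm_smul]
        have a1 : ‖fderiv ℝ (χ i) p v‖ ≤ D * ‖v‖ :=
          (ContinuousLinearMap.le_opNorm _ _).trans (by gcongr; exact h5 i hi)
        calc ‖fderiv ℝ (χ i) p v‖ * ‖w i p‖ ≤ (D * ‖v‖) * e := by
              gcongr
              exact hw0 i hi
          _ = _ := by ring
    refine (norm_sum_le _ _).trans ((Finset.sum_le_sum k1).trans (le_of_eq ?_))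
    rw [Finset.sum_add_distrib, ← Finset.sum_mul, e1, Finset.sum_const, nsmul_eq_mul]
    ring
  · refine ContinuousLinearMap.opNorm_le_bound₂ _ (by positivity) fun u v => ?_
    rw [hd2]
    have k1 : ∀ i ∈ s, ‖fderiv ℝ (fderiv ℝ (G i)) p u v‖ ≤
        χ i p * (a * ‖u‖ * ‖v‖) + 3 * D * e * ‖u‖ * ‖v‖ := by
      intro i hi
      have h7 := dd_smul (hχ i hi) (hws i hi) u v
      have h7' : (fun z => χ i z • w i z) = G i := by rw [hG]
      rw [h7'] at h7
      rw [h7]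
      have hχ1 : ∀ v, ‖fderiv ℝ (χ i) p v‖ ≤ D * ‖v‖ := fun v =>
        (ContinuousLinearMap.le_opNorm _ _).trans (by gcongr; exact h5 i hi)
      have b1 : ‖χ i p • fderiv ℝ (fderiv ℝ (w i)) p u v‖ ≤ χ i p * (a * ‖u‖ * ‖v‖) := by
        rw [norm_smul, Real.norm_of_nonneg (h0 i hi)]
        exact mul_le_mul_of_nonneg_left (hw2 i hi u v) (h0 i hi)
      have b2 : ‖fderiv ℝ (χ i) p u • fderiv ℝ (w i) p v‖ ≤ (D * ‖u‖) * (e * ‖v‖) := by
        rw [norm_smul]
        exact mul_le_mul (hχ1 u) (hw1 i hi v) (norm_nonneg _) (by positivity)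
      have b3 : ‖fderiv ℝ (χ i) p v • fderiv ℝ (w i) p u‖ ≤ (D * ‖v‖) * (e * ‖u‖) := by
        rw [norm_smul]
        exact mul_le_mul (hχ1 v) (hw1 i hi u) (norm_nonneg _) (by positivity)
      have b4 : ‖fderiv ℝ (fderiv ℝ (χ i)) p u v • w i p‖ ≤ (D * ‖u‖ * ‖v‖) * e := by
        rw [norm_smul]
        refine mul_le_mul ?_ (hw0 i hi) (norm_nonneg _) (by positivity)
        refine (ContinuousLinearMap.le_opNorm₂ _ _ _).trans ?_
        have := h6 i hi
        gcongr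
      calc _ ≤ χ i p * (a * ‖u‖ * ‖v‖) + (D * ‖u‖) * (e * ‖v‖) + (D * ‖v‖) * (e * ‖u‖) +
            (D * ‖u‖ * ‖v‖) * e :=
            (norm_add_le _ _).trans (add_le_add ((norm_add_le _ _).trans
              (add_le_add ((norm_add_le _ _).trans (add_le_add b1 b2)) b3)) b4)
        _ = _ := by ring
    refine (norm_sum_le _ _).trans ((Finset.sum_le_sum k1).trans (le_of_eq ?_))
    rw [Finset.sum_add_distrib, ← Finset.sum_mul, e1, Finset.sum_const, nsmul_eq_mul]
    ring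

end Pool.Agent.N824.C2
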