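import Pool.Agent.N824.C2.Glob2
import Pool.Agent.N824.CJ.ExactR

/-!
# Smooth maps with 2-jets in an open relation from coarse ones
-/

set_option autoImplicit false
set_option maxSynthPendingDepth 3

open Set Filter Topology Metric Function MeasureTheory
open scoped Manifold ContDiff Convolution

set_option linter.unusedSectionVars false

noncomputable section

namespace Pool.Agent.N824.C2

open Pool.Agent.Y522 Pool.Agent.Y954.SH Pool.Agent.N824.CR Pool.Agent.N824.CN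
open Pool.Agent.N824.CJ

variable {n : ℕ} {W : Type} [NormedAddCommGroup W] [NormedSpace ℝ W] [FiniteDimensional ℝ W]
  {X : Type} [TopologicalSpace X] [ChartedSpace (E n) X]

/-- the 2-jets up to the distance `b` of `L`, `Q` satisfy `P` -/
def Rob {n : ℕ} {W : Type} [NormedAddCommGroup W] [NormedSpace ℝ W]
    (P : (E n →L[ℝ] W) → (E n →L[ℝ] E n →L[ℝ] W) → Prop) (b : ℝ) (L : E n →L[ℝ] W)
    (Q : E n →L[ℝ] E n →L[ℝ] W) : Prop :=
  ∀ (L' : E n →L[ℝ] W) (Q' : E n →L[ℝ] E n →L[ℝ] W), (∀ u v, Q' u v = Q' v u) →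
    ‖L' - L‖ ≤ b → ‖Q' - Q‖ ≤ b → P L' Q'

/-- the 2-jet of `F` at `x` satisfies `P`, in some parametrization -/
def Sat {n : ℕ} {W : Type} [NormedAddCommGroup W] [NormedSpace ℝ W] {X : Type}
    [TopologicalSpace X] [ChartedSpace (E n) X]
    (P : (E n →L[ℝ] W) → (E n →L[ℝ] E n →L[ℝ] W) → Prop) (F : X → W) (x : X) : Prop :=
  ∃ A : E n → X, A 0 = x ∧ LD n A 0 ∧
    P (fderiv ℝ (fun z => F (A z)) 0) (fderiv ℝ (fderiv ℝ fun z => F (A z)) 0)

/-- the maps `f r` are coarse solutions of the relation `P` at `x` -/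
def Crs {n : ℕ} {W : Type} [NormedAddCommGroup W] [NormedSpace ℝ W] {X : Type}
    [TopologicalSpace X] [ChartedSpace (E n) X]
    (P : (E n →L[ℝ] W) → (E n →L[ℝ] E n →L[ℝ] W) → Prop) (C : ℝ) (d : X → X → ℝ) (S : Set ℝ)
    (f : ℝ → X → W) (x : X) : Prop :=
  ∃ (A : E n → X) (κ ρ : ℝ) (τ : ℝ → ℝ), A 0 = x ∧ LD n A 0 ∧ 1 ≤ κ ∧ 0 < ρ ∧
    Tendsto τ (𝓝[>] 0) (𝓝 0) ∧
    (∀ p q, ‖p‖ < ρ → ‖q‖ < ρ →
      d (A p) (A q) ≤ κ * ‖p - q‖ ∧ ‖p - q‖ ≤ κ * d (A p) (A q)) ∧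
    ∀ p, ‖p‖ < ρ → ∀ r ∈ S, 0 < r → r < ρ →
      ∃ (L : E n →L[ℝ] W) (Q : E n →L[ℝ] E n →L[ℝ] W) (δ : ℝ) (c : W), 0 ≤ δ ∧
        (∀ u v, Q u v = Q v u) ∧ (1 + ‖L‖ + ‖Q‖) * r ≤ δ * τ r ∧
        MEst2 n (fun z => f r (A z)) p κ r δ L Q c ∧ Rob P (C * κ ^ (2 * n + 4) * δ) L Q

lemma jets_add (g : E n → W) (p : E n) :
    fderiv ℝ (fun z => g (z + p)) 0 = fderiv ℝ g p ∧
      fderiv ℝ (fderiv ℝ fun z => g (z + p)) 0 = fderiv ℝ (fderiv ℝ g) p := by
  have h1 : (fderiv ℝ fun z => g (z + p)) = fun z => fderiv ℝ g (z + p) := by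
    funext z
    exact fderiv_comp_add_right p
  rw [h1]
  refine ⟨by beta_reduce; rw [zero_add], ?_⟩
  rw [fderiv_comp_add_right, zero_add]

theorem Sat.of_point {P : (E n →L[ℝ] W) → (E n →L[ℝ] E n →L[ℝ] W) → Prop} {F : X → W} {x : X}
    {A : E n → X} {p : E n} (hA : LD n A p) (hx : A p = x)
    (h : P (fderiv ℝ (fun z => F (A z)) p) (fderiv ℝ (fderiv ℝ fun z => F (A z)) p)) :
    Sat P F x := by
  obtain ⟨h1, h2⟩ := jets_add (fun z => F (A z)) p
  refine ⟨fun z => A (z + p), by beta_reduce; rw [zero_add, hx], ?_, ?_⟩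
  · have h3 : LD n A ((fun z : E n => z + p) 0) := by
      beta_reduce
      rwa [zero_add]
    exact LD.comp_fun (f := fun z : E n => z + p) h3 (LD_add_const p 0)
  · rw [h1, h2]
    exact h

theorem Sat.congr {P : (E n →L[ℝ] W) → (E n →L[ℝ] E n →L[ℝ] W) → Prop} {F F' : X → W} {x : X}
    (h : Sat P F x) (hF : F' =ᶠ[𝓝 x] F) : Sat P F' x := by
  obtain ⟨A, hA0, hA, hP⟩ := h
  have h1 : (fun z => F' (A z)) =ᶠ[𝓝 0] fun z => F (A z) := by
    have h2 : Tendsto A (𝓝 0) (𝓝 x) := by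
      have := hA.continuousAt.tendsto
      rwa [hA0] at this
    exact h2.eventually hF
  refine ⟨A, hA0, hA, ?_⟩
  rw [h1.fderiv_eq, h1.fderiv.fderiv_eq]
  exact hP

/-- difference of a coarse solution and a smooth map -/
theorem Crs.sub {P : (E n →L[ℝ] W) → (E n →L[ℝ] E n →L[ℝ] W) → Prop} {C : ℝ}
    {d : X → X → ℝ} {S : Set ℝ} {f : ℝ → X → W} {F₀ : X → W}
    (hF₀ : ContMDiff (𝓡 n) 𝓘(ℝ, W) ∞ F₀) {x : X} (h : Crs P C d S f x) :
    CReg2 n d S (fun r x => f r x - F₀ x) (fun A p L Q κ δ =>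
      Rob P (C * κ ^ (2 * n + 4) * (δ / 2)) (L + fderiv ℝ (fun z => F₀ (A z)) p)
        (Q + fderiv ℝ (fderiv ℝ fun z => F₀ (A z)) p)) x := by
  obtain ⟨A, κ, ρ, τ, hA0, hA, hκ, hρ, hτ, hbi, hf⟩ := h
  obtain ⟨g, hg⟩ : ∃ g : E n → W, g = fun z => F₀ (A z) := ⟨_, rfl⟩
  have hgs : ContDiffAt ℝ ∞ g 0 := by
    have h2 : ContMDiffAt (𝓡 n) 𝓘(ℝ, W) ∞ (F₀ ∘ A) 0 := (hF₀ (A 0)).comp 0 hA.contMDiffAt
    rw [hg]
    exact contMDiffAt_iff_contDiffAt.1 h2
  obtain ⟨ρ1, C1, hρ1, hC1, hb1, hb2⟩ := cubic_ball hgs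
  have hVB := VB_nonneg (n := n)
  have hκ2 : 1 ≤ κ ^ 2 := one_le_pow₀ hκ
  have hκ2' : 0 < κ ^ 2 := by linarith
  obtain ⟨G, hG⟩ : ∃ G, G = C1 * (κ ^ 2) ^ 3 * ((κ ^ 2) ^ n * VB n) := ⟨_, rfl⟩
  have hG0 : 0 ≤ G := by rw [hG]; positivity
  have hev : ∀ᶠ r in 𝓝[>] (0 : ℝ), G * τ r < 1 := by
    have h1 := hτ.const_mul G
    rw [mul_zero] at h1
    exact h1.eventually_lt_const one_pos
  obtain ⟨ρ3, hρ3, hb3⟩ := mem_nhdsGT_iff_exists_Ioo_subset.1 hev
  have hρ3' : 0 < ρ3 := hρ3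
  obtain ⟨ρ5, hρ5⟩ : ∃ ρ5, ρ5 = ρ1 / (1 + κ ^ 2) := ⟨_, rfl⟩
  have hρ50 : 0 < ρ5 := by rw [hρ5]; positivity
  refine ⟨A, κ, min (min ρ ρ3) ρ5, fun r => (1 + 2 * C1) / 2 * τ r, hA0, hA, hκ,
    lt_min (lt_min hρ hρ3') hρ50, ?_, fun p q hp hq =>
      hbi p q (hp.trans_le ((min_le_left _ _).trans (min_le_left _ _)))
        (hq.trans_le ((min_le_left _ _).trans (min_le_left _ _))), ?_⟩
  · have h1 := hτ.const_mul ((1 + 2 * C1) / 2)
    rwa [mul_zero] at h1
  · intro p hp r hr h0 hrρ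
    have hpρ : ‖p‖ < ρ := hp.trans_le ((min_le_left _ _).trans (min_le_left _ _))
    have hp5 : ‖p‖ < ρ5 := hp.trans_le (min_le_right _ _)
    have hr5 : r < ρ5 := hrρ.trans_le (min_le_right _ _)
    have hr3 : r < ρ3 := hrρ.trans_le ((min_le_left _ _).trans (min_le_right _ _))
    have hrρ' : r < ρ := hrρ.trans_le ((min_le_left _ _).trans (min_le_left _ _))
    have hnear : ∀ q : E n, ‖q - p‖ ≤ κ ^ 2 * r → ‖q - 0‖ < ρ1 := by
      intro q hq
      have h1 : ‖q - 0‖ ≤ ‖q - p‖ + ‖p‖ := by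
        rw [sub_zero]
        calc ‖q‖ = ‖(q - p) + p‖ := by congr 1; abel
          _ ≤ _ := norm_add_le _ _
      have h2 : κ ^ 2 * r < κ ^ 2 * ρ5 := by gcongr
      have h3 : (1 + κ ^ 2) * ρ5 = ρ1 := by
        rw [hρ5]
        field_simp
      linarith
    have hpp : ‖p - 0‖ < ρ1 := hnear p (by rw [sub_self, norm_zero]; positivity)
    have hτ1 : G * τ r < 1 := hb3 ⟨h0, hr3⟩
    obtain ⟨L, Q, δ, c, hδ, hQs, hslow, ⟨hint, hest⟩, hrob⟩ := hf p hpρ r hr h0 hrρ'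
    obtain ⟨hg1, hg2, hg3⟩ := hb1 p hpp
    have hgi : IntegrableOn (fun q => F₀ (A q)) (closedBall p (κ ^ 2 * r)) := by
      have hcont : ContinuousOn g (closedBall p (κ ^ 2 * r)) := by
        intro q hq
        rw [mem_closedBall, dist_eq_norm] at hq
        exact (hb1 q (hnear q hq)).1.continuousAt.continuousWithinAt
      rw [hg] at hcont
      exact hcont.integrableOn_compact (isCompact_closedBall _ _)
    beta_reduce
    rw [← hg]
    refine ⟨L - fderiv ℝ g p, Q - fderiv ℝ (fderiv ℝ g) p, 2 * δ, c - g p, by positivity,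
      fun u v => ?_, ?_, ⟨?_, ?_⟩, ?_⟩
    · simp only [sub_apply]
      rw [hQs u v, symm_dd hg1 u v]
    · have k1 : ‖L - fderiv ℝ g p‖ ≤ ‖L‖ + C1 := (norm_sub_le _ _).trans (by gcongr)
      have k2 : ‖Q - fderiv ℝ (fderiv ℝ g) p‖ ≤ ‖Q‖ + C1 := (norm_sub_le _ _).trans (by gcongr)
      have k3 := norm_nonneg L
      have k4 := norm_nonneg Q
      calc (‖L - fderiv ℝ g p‖ + ‖Q - fderiv ℝ (fderiv ℝ g) p‖) * r ≤
          ((‖L‖ + C1) + (‖Q‖ + C1)) * r := by gcongr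
        _ ≤ ((1 + 2 * C1) * (1 + ‖L‖ + ‖Q‖)) * r := by
          gcongr
          nlinarith [mul_nonneg hC1 k3, mul_nonneg hC1 k4]
        _ = (1 + 2 * C1) * ((1 + ‖L‖ + ‖Q‖) * r) := by ring
        _ ≤ (1 + 2 * C1) * (δ * τ r) := by gcongr
        _ = _ := by ring
    · exact Integrable.sub hint hgi
    · have hr' : r ≤ δ * τ r := by
        refine le_trans ?_ hslow
        have k3 := norm_nonneg L
        have k4 := norm_nonneg Q
        nlinarith
      have hκr : 0 < κ ^ 2 * r := by positivity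
      have i1 : IntegrableOn (fun q => ‖f r (A q) - Quad c L Q p q‖)
          (closedBall p (κ ^ 2 * r)) := by
        refine Integrable.norm (Integrable.sub hint ?_)
        exact (Quad_smooth _ _ _ _).continuous.continuousOn.integrableOn_compact
          (isCompact_closedBall _ _)
      have i2 : IntegrableOn (fun q => ‖f r (A q) - F₀ (A q) -
          Quad (c - g p) (L - fderiv ℝ g p) (Q - fderiv ℝ (fderiv ℝ g) p) p q‖)
          (closedBall p (κ ^ 2 * r)) := by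
        refine Integrable.norm ((Integrable.sub hint hgi).sub ?_)
        exact (Quad_smooth _ _ _ _).continuous.continuousOn.integrableOn_compact
          (isCompact_closedBall _ _)
      refine (int_le (b := C1 * (κ ^ 2 * r) ^ 3) hκr i2 i1 hest fun q hq => ?_).trans ?_
      · have h1 := hb2 p q hpp (hnear q hq)
        have e : f r (A q) - F₀ (A q) -
            Quad (c - g p) (L - fderiv ℝ g p) (Q - fderiv ℝ (fderiv ℝ g) p) p q =
            (f r (A q) - Quad c L Q p q) -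
              (g q - Quad (g p) (fderiv ℝ g p) (fderiv ℝ (fderiv ℝ g) p) p q) := by
          unfold Quad
          simp only [sub_apply, smul_sub]
          rw [show g q = F₀ (A q) by rw [hg]]
          abel
        rw [e]
        refine (norm_sub_le _ _).trans (add_le_add le_rfl (h1.trans ?_))
        gcongr
      · have e : C1 * (κ ^ 2 * r) ^ 3 * ((κ ^ 2 * r) ^ n * VB n) = G * r * r ^ (n + 2) := by
          rw [hG, mul_pow, mul_pow, pow_add]
          ring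
        rw [e]
        have h1 : G * r ≤ δ := by
          calc G * r ≤ G * (δ * τ r) := by gcongr
            _ = (G * τ r) * δ := by ring
            _ ≤ 1 * δ := by gcongr
            _ = δ := one_mul δ
        calc δ * r ^ (n + 2) + G * r * r ^ (n + 2) ≤ δ * r ^ (n + 2) + δ * r ^ (n + 2) := by
              gcongr
          _ = _ := by ring
    · have e : 2 * δ / 2 = δ := by ring
      beta_reduce
      rw [sub_add_cancel, sub_add_cancel, e]
      exact hrob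

/-- smooth solutions are coarse solutions -/
theorem Crs.of_smooth {P : (E n →L[ℝ] W) → (E n →L[ℝ] E n →L[ℝ] W) → Prop}
    (hP : ∀ L Q, (∀ u v, Q u v = Q v u) → P L Q → ∃ b > 0, Rob P b L Q) (C : ℝ)
    {d : X → X → ℝ} (S : Set ℝ) {F : X → W} (hF : ContMDiff (𝓡 n) 𝓘(ℝ, W) ∞ F)
    {A : E n → X} (hA : LD n A 0)
    (hPA : P (fderiv ℝ (fun z => F (A z)) 0) (fderiv ℝ (fderiv ℝ fun z => F (A z)) 0))
    {κ ρ : ℝ} (hκ : 1 ≤ κ) (hρ : 0 < ρ) (hbi : ∀ p q, ‖p‖ < ρ → ‖q‖ < ρ →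
      d (A p) (A q) ≤ κ * ‖p - q‖ ∧ ‖p - q‖ ≤ κ * d (A p) (A q)) :
    Crs P C d S (fun _ => F) (A 0) := by
  obtain ⟨g, hg⟩ : ∃ g : E n → W, g = fun z => F (A z) := ⟨_, rfl⟩
  have hgs : ContDiffAt ℝ ∞ g 0 := by
    have h2 : ContMDiffAt (𝓡 n) 𝓘(ℝ, W) ∞ (F ∘ A) 0 := (hF (A 0)).comp 0 hA.contMDiffAt
    rw [hg]
    exact contMDiffAt_iff_contDiffAt.1 h2
  obtain ⟨ρ1, C1, hρ1, hC1, hb1, hb2⟩ := cubic_ball hgs
  rw [← hg] at hPA
  obtain ⟨b, hb, hrob⟩ := hP _ _ (fun u v => symm_dd (to_two hgs) u v) hPA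
  have hc1 : ContDiffAt ℝ ∞ (fderiv ℝ g) 0 := hgs.fderiv_right (m := ∞) (by simp)
  have hc2 : ContDiffAt ℝ ∞ (fderiv ℝ (fderiv ℝ g)) 0 := hc1.fderiv_right (m := ∞) (by simp)
  have hev : ∀ᶠ p in 𝓝 (0 : E n), ‖fderiv ℝ g p - fderiv ℝ g 0‖ < b / 2 ∧
      ‖fderiv ℝ (fderiv ℝ g) p - fderiv ℝ (fderiv ℝ g) 0‖ < b / 2 := by
    have h1 : Tendsto (fun p => ‖fderiv ℝ g p - fderiv ℝ g 0‖) (𝓝 0)
        (𝓝 ‖fderiv ℝ g 0 - fderiv ℝ g 0‖) := (hc1.continuousAt.sub continuousAt_const).norm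
    have h2 : Tendsto (fun p => ‖fderiv ℝ (fderiv ℝ g) p - fderiv ℝ (fderiv ℝ g) 0‖) (𝓝 0)
        (𝓝 ‖fderiv ℝ (fderiv ℝ g) 0 - fderiv ℝ (fderiv ℝ g) 0‖) :=
      (hc2.continuousAt.sub continuousAt_const).norm
    rw [sub_self, norm_zero] at h1 h2
    exact (h1.eventually_lt_const (by linarith)).and (h2.eventually_lt_const (by linarith))
  obtain ⟨ρ2, hρ2, hb3⟩ := Metric.mem_nhds_iff.1 hev
  have hVB := VB_nonneg (n := n)
  have hκ2 : 1 ≤ κ ^ 2 := one_le_pow₀ hκ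
  have hκ2' : 0 < κ ^ 2 := by linarith
  have hκn : 1 ≤ κ ^ (2 * n + 4) := one_le_pow₀ hκ
  obtain ⟨δ, hδ⟩ : ∃ δ, δ = b / (2 * ((|C| + 1) * κ ^ (2 * n + 4))) := ⟨_, rfl⟩
  have hδ0 : 0 < δ := by rw [hδ]; positivity
  have hδb : C * κ ^ (2 * n + 4) * δ ≤ b / 2 := by
    have h1 : (|C| + 1) * κ ^ (2 * n + 4) * δ = b / 2 := by
      rw [hδ]
      field_simp
    rw [← h1]
    have h2 := le_abs_self C
    gcongr
    linarith
  obtain ⟨G, hG⟩ : ∃ G, G = C1 * (κ ^ 2) ^ 3 * ((κ ^ 2) ^ n * VB n) := ⟨_, rfl⟩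
  have hG0 : 0 ≤ G := by rw [hG]; positivity
  obtain ⟨ρ5, hρ5⟩ : ∃ ρ5, ρ5 = ρ1 / (1 + κ ^ 2) := ⟨_, rfl⟩
  have hρ50 : 0 < ρ5 := by rw [hρ5]; positivity
  have hρ60 : 0 < δ / (G + 1) := by positivity
  refine ⟨A, κ, min (min ρ ρ2) (min ρ5 (δ / (G + 1))), fun r => (1 + C1 + C1) / δ * r, rfl, hA,
    hκ, lt_min (lt_min hρ hρ2) (lt_min hρ50 hρ60), ?_, fun p q hp hq =>
      hbi p q (hp.trans_le ((min_le_left _ _).trans (min_le_left _ _)))
        (hq.trans_le ((min_le_left _ _).trans (min_le_left _ _))), ?_⟩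
  · have h1 : Tendsto (fun r : ℝ => r) (𝓝[>] 0) (𝓝 0) := nhdsWithin_le_nhds
    have h2 := h1.const_mul ((1 + C1 + C1) / δ)
    rwa [mul_zero] at h2
  · intro p hp r hr h0 hrρ
    have hp5 : ‖p‖ < ρ5 := hp.trans_le ((min_le_right _ _).trans (min_le_left _ _))
    have hr5 : r < ρ5 := hrρ.trans_le ((min_le_right _ _).trans (min_le_left _ _))
    have hr6 : r < δ / (G + 1) := hrρ.trans_le ((min_le_right _ _).trans (min_le_right _ _))
    have hp2 : ‖p‖ < ρ2 := hp.trans_le ((min_le_left _ _).trans (min_le_right _ _))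
    have hnear : ∀ q : E n, ‖q - p‖ ≤ κ ^ 2 * r → ‖q - 0‖ < ρ1 := by
      intro q hq
      have h1 : ‖q - 0‖ ≤ ‖q - p‖ + ‖p‖ := by
        rw [sub_zero]
        calc ‖q‖ = ‖(q - p) + p‖ := by congr 1; abel
          _ ≤ _ := norm_add_le _ _
      have h2 : κ ^ 2 * r < κ ^ 2 * ρ5 := by gcongr
      have h3 : (1 + κ ^ 2) * ρ5 = ρ1 := by
        rw [hρ5]
        field_simp
      linarith
    have hpp : ‖p - 0‖ < ρ1 := hnear p (by rw [sub_self, norm_zero]; positivity)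
    obtain ⟨hg1, hg2, hg3⟩ := hb1 p hpp
    obtain ⟨hj1, hj2⟩ := hb3 (mem_ball_zero_iff.2 hp2)
    have hκr : 0 < κ ^ 2 * r := by positivity
    have hcont : ContinuousOn g (closedBall p (κ ^ 2 * r)) := by
      intro q hq
      rw [mem_closedBall, dist_eq_norm] at hq
      exact (hb1 q (hnear q hq)).1.continuousAt.continuousWithinAt
    refine ⟨fderiv ℝ g p, fderiv ℝ (fderiv ℝ g) p, δ, g p, hδ0.le,
      fun u v => symm_dd hg1 u v, ?_, ⟨?_, ?_⟩, ?_⟩
    · have e : δ * ((1 + C1 + C1) / δ * r) = (1 + C1 + C1) * r := by field_simp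
      rw [e]
      gcongr
    · rw [← hg]
      exact hcont.integrableOn_compact (isCompact_closedBall _ _)
    · rw [show (fun z => F (A z)) = g from hg.symm] at *
      have i2 : IntegrableOn (fun q => ‖g q -
          Quad (g p) (fderiv ℝ g p) (fderiv ℝ (fderiv ℝ g) p) p q‖)
          (closedBall p (κ ^ 2 * r)) := by
        refine Integrable.norm (Integrable.sub
          (hcont.integrableOn_compact (isCompact_closedBall _ _)) ?_)
        exact (Quad_smooth _ _ _ _).continuous.continuousOn.integrableOn_compact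
          (isCompact_closedBall _ _)
      have i0 : IntegrableOn (fun _ : E n => (0 : ℝ)) (closedBall p (κ ^ 2 * r)) :=
        integrableOn_const (by exact measure_closedBall_lt_top.ne)
      refine (int_le (J := 0) (b := C1 * (κ ^ 2 * r) ^ 3) hκr i2 i0 (by simp)
        fun q hq => ?_).trans ?_
      · rw [zero_add]
        refine (hb2 p q hpp (hnear q hq)).trans ?_
        gcongr
      · have e : C1 * (κ ^ 2 * r) ^ 3 * ((κ ^ 2 * r) ^ n * VB n) = G * r * r ^ (n + 2) := by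
          rw [hG, mul_pow, mul_pow, pow_add]
          ring
        rw [zero_add, e]
        have h1 : G * r ≤ δ := by
          have h2 : r * (G + 1) < δ := by rwa [lt_div_iff₀ (by positivity)] at hr6
          nlinarith
        gcongr
    · intro L' Q' hQ' hL1 hQ1
      refine hrob L' Q' hQ' ?_ ?_
      · calc ‖L' - fderiv ℝ g 0‖ = ‖(L' - fderiv ℝ g p) + (fderiv ℝ g p - fderiv ℝ g 0)‖ := by
              congr 1; abel
          _ ≤ ‖L' - fderiv ℝ g p‖ + ‖fderiv ℝ g p - fderiv ℝ g 0‖ := norm_add_le _ _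
          _ ≤ b := by linarith
      · calc ‖Q' - fderiv ℝ (fderiv ℝ g) 0‖ = ‖(Q' - fderiv ℝ (fderiv ℝ g) p) +
              (fderiv ℝ (fderiv ℝ g) p - fderiv ℝ (fderiv ℝ g) 0)‖ := by
              congr 1; abel
          _ ≤ ‖Q' - fderiv ℝ (fderiv ℝ g) p‖ +
              ‖fderiv ℝ (fderiv ℝ g) p - fderiv ℝ (fderiv ℝ g) 0‖ := norm_add_le _ _
          _ ≤ b := by linarith

/-- smooth solutions of an open relation of second order exist iff coarse ones exist -/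
theorem main2 (n : ℕ) : ∃ C₀ : ℝ, ∀ C, C₀ ≤ C → ∀ (W : Type) [NormedAddCommGroup W]
    [NormedSpace ℝ W] [FiniteDimensional ℝ W]
    (P : (E n →L[ℝ] W) → (E n →L[ℝ] E n →L[ℝ] W) → Prop),
    (∀ L Q, (∀ u v, Q u v = Q v u) → P L Q → ∃ b > 0, Rob P b L Q) →
    ∀ (X : Type) [TopologicalSpace X] [ChartedSpace (E n) X]
      [IsManifold (𝓡 n) ∞ X] [T2Space X] [SecondCountableTopology X]
      (Z : Set X), IsClosed Z → ∀ F₀ : X → W, ContMDiff (𝓡 n) 𝓘(ℝ, W) ∞ F₀ →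
      ((∃ (F : X → W) (K : Set X), ContMDiff (𝓡 n) 𝓘(ℝ, W) ∞ F ∧ IsCompact K ∧ Disjoint K Z ∧
          (∀ x, x ∉ K → F x = F₀ x) ∧ ∀ x, Sat P F x) ↔
        ∃ (U : Set X) (d : X → X → ℝ) (S : Set ℝ) (f : ℝ → X → W), IsOpen U ∧ Z ⊆ U ∧
          IsCompact Uᶜ ∧ (∀ x ∈ U, Sat P F₀ x) ∧
          (0 : ℝ) ∈ closure (S ∩ Ioi 0) ∧ (∀ r ∈ S, ∀ x ∈ U, f r x = F₀ x) ∧
          ∀ x, x ∉ U → Crs P C d S f x) := by
  refine ⟨2 * C2 n + 2, fun C hC W _ _ _ P hP X _ _ _ _ _ Z hZ F₀ hF₀ => ?_⟩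
  have : LocallyCompactSpace X := ChartedSpace.locallyCompactSpace (E n) X
  have hMDD := MDD_nonneg (n := n)
  have hC20 : 0 ≤ C2 n := by unfold C2; linarith
  constructor
  · rintro ⟨F, K, hF, hK, hKZ, hF0, hs⟩
    obtain ⟨K1, hK1, h01, h1Z⟩ := exists_compact_between hK hZ.isOpen_compl
      (disjoint_left.1 hKZ)
    obtain ⟨d, hd⟩ := exists_distK (n := n) (X := X) hK1
    have hnear : ∀ x, x ∉ K → F₀ =ᶠ[𝓝 x] F := fun x hx => by
      filter_upwards [hK.isClosed.isOpen_compl.mem_nhds hx] with y hy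
      exact (hF0 y hy).symm
    have hKK1 : ∀ x, x ∉ K1 → x ∉ K := fun x hx hxK => hx (interior_subset (h01 hxK))
    refine ⟨K1ᶜ, d, univ, fun _ => F, hK1.isClosed.isOpen_compl, fun x hx hx1 => h1Z hx1 hx,
      by rwa [compl_compl], fun x hx => ?_, ?_, fun _ _ x hx => hF0 x (hKK1 x hx),
      fun x hx => ?_⟩
    · exact (hs x).congr (hnear x (hKK1 x hx))
    · rw [univ_inter, closure_Ioi]
      exact self_mem_Ici
    · have hxK : x ∈ K1 := not_not.1 hx
      obtain ⟨A, rfl, hA, hPA⟩ := hs x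
      obtain ⟨κ, ρ, hκ, hρ, hbi⟩ := hd A hA hxK
      exact Crs.of_smooth hP C univ hF hA hPA hκ hρ hbi
  · rintro ⟨U, d, S, f, hU, hZU, hUK, hFU, hS, hfU, hf⟩
    obtain ⟨F', K, hK, hKZ, hF'0, hF's, hreg⟩ := glob2 (n := n) (X := X)
      (fun r x => f r x - F₀ x) d _ S hS U Z hU hZ hZU hUK
      (fun r hr x hx => by rw [hfU r hr x hx, sub_self]) (fun x hx => (hf x hx).sub hF₀)
    refine ⟨fun x => F₀ x + F' x, K, ?_, hK, hKZ, fun x hx => ?_, fun x => ?_⟩
    · exact fun x => (hF₀ x).add (hF's x)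
    · beta_reduce
      rw [hF'0 x hx, add_zero]
    · rcases hreg x with ⟨A, p, L, Q, κ, δ, hx, hA, hκ, hδ, hrob, h1, h2⟩ | ⟨hxU, h⟩
      · refine Sat.of_point hA hx ?_
        obtain ⟨g, hg⟩ : ∃ g : E n → W, g = fun z => F₀ (A z) := ⟨_, rfl⟩
        obtain ⟨g', hg'⟩ : ∃ g' : E n → W, g' = fun z => F' (A z) := ⟨_, rfl⟩
        have hgs : ContDiffAt ℝ ∞ g p := by
          have h2 : ContMDiffAt (𝓡 n) 𝓘(ℝ, W) ∞ (F₀ ∘ A) p :=
            (hF₀ (A p)).comp p hA.contMDiffAt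
          rw [hg]
          exact contMDiffAt_iff_contDiffAt.1 h2
        have hgs' : ContDiffAt ℝ ∞ g' p := by
          have h2 : ContMDiffAt (𝓡 n) 𝓘(ℝ, W) ∞ (F' ∘ A) p :=
            (hF's (A p)).comp p hA.contMDiffAt
          rw [hg']
          exact contMDiffAt_iff_contDiffAt.1 h2
        rw [← hg] at hrob
        rw [← hg'] at h1 h2
        have hfun : (fun z => F₀ (A z) + F' (A z)) = fun z => g z + g' z := by
          rw [hg, hg']
        rw [hfun]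
        have e1 : fderiv ℝ (fun z => g z + g' z) p = fderiv ℝ g p + fderiv ℝ g' p := by
          have := (hgs.differentiableAt (by simp)).hasFDerivAt.add
            (hgs'.differentiableAt (by simp)).hasFDerivAt
          exact this.fderiv
        have e2 : fderiv ℝ (fderiv ℝ fun z => g z + g' z) p =
            fderiv ℝ (fderiv ℝ g) p + fderiv ℝ (fderiv ℝ g') p := by
          have k1 : (fderiv ℝ fun z => g z + g' z) =ᶠ[𝓝 p]
              fun y => fderiv ℝ g y + fderiv ℝ g' y := by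
            have k2 : ∀ᶠ y in 𝓝 p, ContDiffAt ℝ 1 g y :=
              (hgs.of_le (m := 1) (by simp)).eventually (by simp)
            have k3 : ∀ᶠ y in 𝓝 p, ContDiffAt ℝ 1 g' y :=
              (hgs'.of_le (m := 1) (by simp)).eventually (by simp)
            filter_upwards [k2, k3] with y hy hy'
            have := (hy.differentiableAt (by simp)).hasFDerivAt.add
              (hy'.differentiableAt (by simp)).hasFDerivAt
            exact this.fderiv
          rw [k1.fderiv_eq]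
          have := ((hgs.fderiv_right (m := ∞) (by simp)).differentiableAt
            (by simp)).hasFDerivAt.add ((hgs'.fderiv_right (m := ∞) (by simp)).differentiableAt
            (by simp)).hasFDerivAt
          exact this.fderiv
        have hκn : 1 ≤ κ ^ (2 * n + 4) := one_le_pow₀ hκ
        refine hrob _ _ (fun u v => ?_) ?_ ?_
        · refine symm_dd ?_ u v
          exact to_two (hgs.add hgs')
        · rw [e1]
          have k : fderiv ℝ g p + fderiv ℝ g' p - (L + fderiv ℝ g p) = fderiv ℝ g' p - L := by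
            abel
          rw [k]
          refine h1.trans ?_
          have k1 : (2 : ℝ) ≤ C := by linarith
          calc δ = 2 * 1 * (δ / 2) := by ring
            _ ≤ C * κ ^ (2 * n + 4) * (δ / 2) := by gcongr
        · rw [e2]
          have k : fderiv ℝ (fderiv ℝ g) p + fderiv ℝ (fderiv ℝ g') p -
              (Q + fderiv ℝ (fderiv ℝ g) p) = fderiv ℝ (fderiv ℝ g') p - Q := by abel
          rw [k]
          refine h2.trans ?_
          calc C2 n * κ ^ (2 * n + 4) * δ = 2 * C2 n * κ ^ (2 * n + 4) * (δ / 2) := by ring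
            _ ≤ C * κ ^ (2 * n + 4) * (δ / 2) := by
              have k1 : 2 * C2 n ≤ C := by linarith
              gcongr
      · refine (hFU x hxU).congr ?_
        filter_upwards [h] with y hy
        rw [hy, add_zero]

end Pool.Agent.N824.C2
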