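import Pool.Agent.N824.CT.GlobN

/-!
# Mollification of maps which are quadratic in the mean
-/

set_option autoImplicit false
set_option maxSynthPendingDepth 3

open Set Filter Topology Metric Function MeasureTheory
open scoped Manifold ContDiff Convolution

set_option linter.unusedSectionVars false

noncomputable section

namespace Pool.Agent.N824.C2

open Pool.Agent.Y522 Pool.Agent.Y954.SH Pool.Agent.N824.CR Pool.Agent.N824.CN
open Pool.Agent.N824.CJ

variable {n : ℕ} {W : Type} [NormedAddCommGroup W] [NormedSpace ℝ W] [FiniteDimensional ℝ W]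

/-- mollification with the kernel `k` -/
def MlK (n : ℕ) (k : E n → ℝ) (G : E n → W) (R r : ℝ) (z : E n) : W :=
  (kk n G R r ⋆[LW W, volume] k) (r⁻¹ • z)

lemma MlK_smooth {k : E n → ℝ} (hk : ContDiff ℝ ∞ k) (hkc : HasCompactSupport k)
    {G : E n → W} {R r : ℝ} (hG : IntegrableOn G (closedBall 0 R)) (hr : 0 < r) :
    ContDiff ℝ ∞ (MlK n k G R r) := by
  have h1 : ContDiff ℝ ∞ (kk n G R r ⋆[LW W, volume] k) :=
    HasCompactSupport.contDiff_convolution_right (n := ⊤) (LW W) hkc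
      (kk_int hG hr).locallyIntegrable hk
  exact h1.comp (contDiff_const_smul r⁻¹)

lemma fd_smooth {k : E n → ℝ} (hk : ContDiff ℝ ∞ k) (w : E n) :
    ContDiff ℝ ∞ (fun t => fderiv ℝ k t w) :=
  (hk.fderiv_right (m := ∞) (by simp)).clm_apply contDiff_const

lemma MlK_d {k : E n → ℝ} (hk : ContDiff ℝ ∞ k) (hkc : HasCompactSupport k)
    {G : E n → W} {R r : ℝ} {p w : E n}
    (hG : IntegrableOn G (closedBall 0 R)) (hr : 0 < r) :
    fderiv ℝ (MlK n k G R r) p w = r⁻¹ • MlK n (fun t => fderiv ℝ k t w) G R r p := by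
  have hki := kk_int hG hr
  have hkl := hki.locallyIntegrable
  have h1 := HasCompactSupport.hasFDerivAt_convolution_right (LW W) hkc hkl
    (hk.of_le (by simp)) (r⁻¹ • p)
  have h2 : HasFDerivAt (MlK n k G R r)
      ((((kk n G R r) ⋆[(LW W).precompR (E n), volume] fderiv ℝ k) (r⁻¹ • p)).comp
        (r⁻¹ • ContinuousLinearMap.id ℝ (E n))) p := by
    have h3 : HasFDerivAt (fun z : E n => r⁻¹ • z) (r⁻¹ • ContinuousLinearMap.id ℝ (E n)) p :=
      (hasFDerivAt_id p).const_smul r⁻¹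
    exact h1.comp p h3
  rw [h2.fderiv]
  have h4 : ((((kk n G R r) ⋆[(LW W).precompR (E n), volume] fderiv ℝ k) (r⁻¹ • p)).comp
        (r⁻¹ • ContinuousLinearMap.id ℝ (E n))) w =
      r⁻¹ • (((kk n G R r) ⋆[(LW W).precompR (E n), volume] fderiv ℝ k) (r⁻¹ • p)) w := by
    simp
  rw [h4, convolution_precompR_apply (LW W) hkl (hkc.fderiv ℝ)
    (hk.continuous_fderiv (by simp))]
  rfl

lemma MlK_int {k : E n → ℝ} (hk : Continuous k) (hkc : HasCompactSupport k)
    {G : E n → W} {R r : ℝ} (p : E n) (hG : IntegrableOn G (closedBall 0 R)) (hr : 0 < r) :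
    Integrable fun t => k t • kk n G R r (r⁻¹ • p - t) := by
  obtain ⟨Cb, hCb⟩ : ∃ Cb : ℝ, ∀ t : E n, ‖k t‖ ≤ Cb := hkc.exists_bound_of_continuous hk
  exact ((kk_int hG hr).comp_sub_left (r⁻¹ • p)).bdd_smul Cb
    hk.aestronglyMeasurable (Eventually.of_forall hCb)

lemma MlK_eq {k : E n → ℝ} {G : E n → W} {R r : ℝ} {p : E n} :
    MlK n k G R r p = ∫ t, k t • kk n G R r (r⁻¹ • p - t) := by
  unfold MlK
  rw [convolution_eq_swap]
  simp only [LW_apply]

/-- comparison of the mollifications of two maps -/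
theorem MlK_mean {k : E n → ℝ} (hk : Continuous k) (hkc : HasCompactSupport k) {Mb : ℝ}
    (hMb : ∀ t, ‖k t‖ ≤ Mb) (hk0 : ∀ t, 1 < ‖t‖ → k t = 0)
    {G T : E n → W} (hT : Continuous T) {R r : ℝ} {p : E n}
    (hG : IntegrableOn G (closedBall 0 R)) (hr : 0 < r) (hp : ‖p‖ + r ≤ R) :
    ‖MlK n k G R r p - ∫ t, k t • T (p - r • t)‖ ≤
      Mb * (r ^ n)⁻¹ * ∫ s in closedBall p r, ‖G s - T s‖ := by
  have hMb0 : 0 ≤ Mb := (norm_nonneg _).trans (hMb 0)
  have hsub : closedBall p r ⊆ closedBall 0 R := by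
    intro s hs
    rw [mem_closedBall, dist_eq_norm] at hs
    rw [mem_closedBall_zero_iff]
    calc ‖s‖ = ‖(s - p) + p‖ := by congr 1; abel
      _ ≤ ‖s - p‖ + ‖p‖ := norm_add_le _ _
      _ ≤ R := by linarith
  have i1 := MlK_int hk hkc p hG hr
  have i2 : Integrable fun t : E n => k t • T (p - r • t) := by
    refine (hk.smul (hT.comp ?_)).integrable_of_hasCompactSupport hkc.smul_right
    fun_prop
  have e1 : MlK n k G R r p - ∫ t, k t • T (p - r • t) =
      ∫ t, k t • (kk n G R r (r⁻¹ • p - t) - T (p - r • t)) := by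
    rw [MlK_eq, ← integral_sub i1 i2]
    simp only [smul_sub]
  rw [e1]
  have hgi : IntegrableOn (fun s => ‖G s - T s‖) (closedBall p r) := by
    refine Integrable.norm ((hG.mono_set hsub).sub ?_)
    exact hT.continuousOn.integrableOn_compact (isCompact_closedBall p r)
  obtain ⟨F, hF⟩ : ∃ F : E n → ℝ, F = (closedBall p r).indicator
    (fun s => ‖G s - T s‖) := ⟨_, rfl⟩
  have hFi : Integrable F := by
    rw [hF, integrable_indicator_iff measurableSet_closedBall]
    exact hgi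
  have hFc : Integrable fun t : E n => F (p - r • t) := by
    have h1 : Integrable fun y : E n => F (p - y) := hFi.comp_sub_left p
    exact h1.comp_smul hr.ne'
  have e4 : ∫ s in closedBall p r, ‖G s - T s‖ = ∫ s, F s := by
    rw [hF, integral_indicator measurableSet_closedBall]
  have e5 := integral_ball hr p F
  have key : ‖∫ t, k t • (kk n G R r (r⁻¹ • p - t) - T (p - r • t))‖ ≤
      ∫ t, Mb * F (p - r • t) := by
    refine norm_integral_le_of_norm_le (hFc.const_mul _) (Eventually.of_forall fun t => ?_)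
    rw [norm_smul]
    rcases le_or_gt ‖t‖ 1 with ht | ht
    · rw [Pool.Agent.N824.CN.kk_eq hr hp ht]
      have h2 : p - r • t ∈ closedBall p r := by
        rw [mem_closedBall, dist_eq_norm, sub_sub_cancel_left, norm_neg, norm_smul,
          Real.norm_of_nonneg hr.le]
        nlinarith
      have h3 : F (p - r • t) = ‖G (p - r • t) - T (p - r • t)‖ := by
        rw [hF, indicator_of_mem h2]
      rw [h3]
      gcongr
      exact hMb t
    · rw [hk0 t ht]
      have h5 : 0 ≤ F (p - r • t) := by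
        rw [hF]
        exact indicator_nonneg (fun s _ => norm_nonneg _) _
      simp
      positivity
  rw [integral_const_mul, e5, ← e4] at key
  refine key.trans (le_of_eq ?_)
  ring

/-- integration by parts -/
lemma ibp {k : E n → ℝ} (hk : ContDiff ℝ ∞ k) (hkc : HasCompactSupport k) {g : E n → W}
    (hg : ContDiff ℝ ∞ g) (w : E n) :
    ∫ t, fderiv ℝ k t w • g t = -∫ t, k t • fderiv ℝ g t w := by
  have c1 : Continuous fun t : E n => fderiv ℝ k t w := (fd_smooth hk w).continuous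
  have c2 : Continuous fun t : E n => fderiv ℝ g t w :=
    ((hg.fderiv_right (m := ∞) (by simp)).clm_apply contDiff_const).continuous
  have i1 : Integrable fun x : E n => fderiv ℝ k x w • g x :=
    (c1.smul hg.continuous).integrable_of_hasCompactSupport
      ((hkc.fderiv_apply ℝ w).smul_right)
  have i2 : Integrable fun x : E n => k x • fderiv ℝ g x w :=
    (hk.continuous.smul c2).integrable_of_hasCompactSupport hkc.smul_right
  have i3 : Integrable fun x : E n => k x • g x :=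
    (hk.continuous.smul hg.continuous).integrable_of_hasCompactSupport hkc.smul_right
  have h := integral_smul_fderiv_eq_neg_fderiv_smul_of_integrable
    (f := k) (g := g) (v := w) (μ := volume) i1 i2 i3
    (fun x _ => hk.contDiffAt.differentiableAt (by simp))
    (fun x _ => hg.contDiffAt.differentiableAt (by simp))
  rw [h, neg_neg]

/-- a quadratic map -/
def Quad (c : W) (L : E n →L[ℝ] W) (Q : E n →L[ℝ] E n →L[ℝ] W) (p s : E n) : W :=
  c + L (s - p) + (1 / 2 : ℝ) • Q (s - p) (s - p)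

lemma Quad_smooth (c : W) (L : E n →L[ℝ] W) (Q : E n →L[ℝ] E n →L[ℝ] W) (p : E n) :
    ContDiff ℝ ∞ (Quad c L Q p) := by
  unfold Quad
  have h1 : ContDiff ℝ ∞ fun s : E n => s - p := contDiff_id.sub contDiff_const
  exact (contDiff_const.add (L.contDiff.comp h1)).add
    (((Q.contDiff.comp h1).clm_apply h1).const_smul _)

lemma Quad_fderiv (c : W) (L : E n →L[ℝ] W) {Q : E n →L[ℝ] E n →L[ℝ] W}
    (hQ : ∀ u v, Q u v = Q v u) (p s u : E n) :
    fderiv ℝ (Quad c L Q p) s u = L u + Q (s - p) u := by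
  have h1 : HasFDerivAt (fun s : E n => s - p) (ContinuousLinearMap.id ℝ (E n)) s :=
    (hasFDerivAt_id s).sub_const p
  have h2 : HasFDerivAt (fun s : E n => L (s - p)) (L.comp (ContinuousLinearMap.id ℝ (E n))) s :=
    L.hasFDerivAt.comp s h1
  have h3 : HasFDerivAt (fun s : E n => Q (s - p)) (Q.comp (ContinuousLinearMap.id ℝ (E n))) s :=
    Q.hasFDerivAt.comp s h1
  have h4 := h3.clm_apply h1
  have h5 : HasFDerivAt (Quad c L Q p) _ s :=
    ((hasFDerivAt_const c s).add h2).add (h4.const_smul (1 / 2 : ℝ))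
  rw [h5.fderiv]
  simp only [add_apply, ContinuousLinearMap.comp_apply, smul_apply, zero_add,
    ContinuousLinearMap.id_apply, ContinuousLinearMap.flip_apply]
  rw [hQ u (s - p), ← two_smul ℝ (Q (s - p) u), smul_smul]
  norm_num

/-- the second moment of the second derivative of the kernel -/
lemma K_dd_quad (c : W) (L : E n →L[ℝ] W) {Q : E n →L[ℝ] E n →L[ℝ] W}
    (hQ : ∀ u v, Q u v = Q v u) (p u w : E n) (r : ℝ) :
    ∫ t, fderiv ℝ (fun s => fderiv ℝ (K n) s w) t u • Quad c L Q p (p - r • t) =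
      (r ^ 2) • Q u w := by
  have hg : ContDiff ℝ ∞ fun t : E n => Quad c L Q p (p - r • t) :=
    (Quad_smooth c L Q p).comp (contDiff_const.sub (contDiff_const_smul r))
  have hsm := fd_smooth (K_smooth (n := n)) w
  have hfd : ∀ t v : E n, fderiv ℝ (fun t : E n => Quad c L Q p (p - r • t)) t v =
      -(r • L v) + (r ^ 2) • Q t v := by
    intro t v
    have h1 : HasFDerivAt (fun t : E n => p - r • t) (-(r • ContinuousLinearMap.id ℝ (E n))) t :=
      ((hasFDerivAt_id t).const_smul r).const_sub p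
    have h2 := ((Quad_smooth c L Q p).contDiffAt.differentiableAt
      (x := p - r • t) (by simp)).hasFDerivAt.comp t h1
    have h3 : (Quad c L Q p ∘ fun t : E n => p - r • t) =
      fun t : E n => Quad c L Q p (p - r • t) := rfl
    rw [h3] at h2
    rw [h2.fderiv, ContinuousLinearMap.comp_apply, Quad_fderiv c L hQ]
    have h4 : (-(r • ContinuousLinearMap.id ℝ (E n))) v = -(r • v) := by simp
    have h5 : p - r • t - p = -(r • t) := by abel
    rw [h4, h5]
    simp only [map_neg, map_smul, neg_apply, smul_apply]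
    rw [pow_two, smul_neg, neg_neg, smul_smul]
  rw [ibp hsm (K_cpt.fderiv_apply ℝ w) hg u]
  simp only [hfd]
  have hg2 : ContDiff ℝ ∞ fun t : E n => -(r • L u) + (r ^ 2) • Q t u :=
    contDiff_const.add ((Q.contDiff.clm_apply contDiff_const).const_smul _)
  rw [ibp K_smooth K_cpt hg2 w, neg_neg]
  have hfd2 : ∀ t : E n, fderiv ℝ (fun t : E n => -(r • L u) + (r ^ 2) • Q t u) t w =
      (r ^ 2) • Q w u := by
    intro t
    have h1 : HasFDerivAt (fun t : E n => -(r • L u) + (r ^ 2) • Q t u)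
        ((r ^ 2) • (Q.flip u)) t :=
      ((Q.flip u).hasFDerivAt.const_smul (r ^ 2)).const_add _
    rw [h1.fderiv]
    rfl
  simp only [hfd2]
  rw [integral_smul_const, K_int, one_smul, hQ w u]

/-- bound of the second derivative of the kernel -/
def MDD (n : ℕ) : ℝ := ⨆ t : E n, ‖fderiv ℝ (fderiv ℝ (K n)) t‖

lemma K_d_smooth : ContDiff ℝ ∞ (fderiv ℝ (K n)) :=
  K_smooth.fderiv_right (m := ∞) (by simp)

lemma le_MDD (t : E n) : ‖fderiv ℝ (fderiv ℝ (K n)) t‖ ≤ MDD n := by
  obtain ⟨C, hC⟩ := (((K_cpt (n := n)).fderiv ℝ).fderiv ℝ).exists_bound_of_continuous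
    (K_d_smooth.continuous_fderiv (by simp))
  exact le_ciSup (f := fun t : E n => ‖fderiv ℝ (fderiv ℝ (K n)) t‖)
    ⟨C, by rintro _ ⟨t, rfl⟩; exact hC t⟩ t

lemma MDD_nonneg : 0 ≤ MDD n := (norm_nonneg _).trans (le_MDD (n := n) 0)

lemma fd_fd {F : E n → W} {t : E n} (hF : ContDiffAt ℝ ∞ F t) (u w : E n) :
    fderiv ℝ (fun s => fderiv ℝ F s w) t u = fderiv ℝ (fderiv ℝ F) t u w := by
  have h1 : HasFDerivAt (fderiv ℝ F) (fderiv ℝ (fderiv ℝ F) t) t :=
    ((hF.fderiv_right (m := ∞) (by simp)).differentiableAt (by simp)).hasFDerivAt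
  have h2 := h1.clm_apply (hasFDerivAt_const w t)
  rw [h2.fderiv]
  simp

/-- the second derivative of the mollification of a map which is quadratic in the mean -/
theorem Ml_ddmean {G : E n → W} {R r : ℝ} {p : E n} (c : W) (L : E n →L[ℝ] W)
    {Q : E n →L[ℝ] E n →L[ℝ] W} (hQ : ∀ u v, Q u v = Q v u) (u w : E n)
    (hG : IntegrableOn G (closedBall 0 R)) (hr : 0 < r) (hp : ‖p‖ + r ≤ R) :
    ‖fderiv ℝ (fderiv ℝ (Ml n G R r)) p u w - Q u w‖ ≤
      ‖u‖ * ‖w‖ * MDD n * (r ^ (n + 2))⁻¹ *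
        ∫ s in closedBall p r, ‖G s - Quad c L Q p s‖ := by
  have h0 : Ml n G R r = MlK n (K n) G R r := rfl
  have hsm := fd_smooth (K_smooth (n := n)) w
  have hsc : HasCompactSupport fun t : E n => fderiv ℝ (K n) t w := K_cpt.fderiv_apply ℝ w
  have h1 : fderiv ℝ (fderiv ℝ (Ml n G R r)) p u w =
      (r⁻¹ * r⁻¹) • MlK n (fun t => fderiv ℝ (fun s => fderiv ℝ (K n) s w) t u) G R r p := by
    rw [← fd_fd (Ml_smooth hG hr).contDiffAt]
    have h2 : (fun s => fderiv ℝ (Ml n G R r) s w) =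
        fun s => r⁻¹ • MlK n (fun t => fderiv ℝ (K n) t w) G R r s := by
      funext s
      rw [h0, MlK_d K_smooth K_cpt hG hr]
    rw [h2]
    have h3 : HasFDerivAt (fun s => r⁻¹ • MlK n (fun t => fderiv ℝ (K n) t w) G R r s)
        (r⁻¹ • fderiv ℝ (MlK n (fun t => fderiv ℝ (K n) t w) G R r) p) p :=
      ((MlK_smooth hsm hsc hG hr).contDiffAt.differentiableAt
        (by simp)).hasFDerivAt.const_smul r⁻¹
    rw [h3.fderiv, smul_apply, MlK_d hsm hsc hG hr, smul_smul]
  have h4 := MlK_mean (k := fun t => fderiv ℝ (fun s => fderiv ℝ (K n) s w) t u)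
    (fd_smooth hsm u).continuous (hsc.fderiv_apply ℝ u)
    (Mb := ‖u‖ * ‖w‖ * MDD n) (fun t => by
      rw [fd_fd K_smooth.contDiffAt]
      calc _ ≤ ‖fderiv ℝ (fderiv ℝ (K n)) t‖ * ‖u‖ * ‖w‖ :=
            ContinuousLinearMap.le_opNorm₂ _ _ _
        _ ≤ MDD n * ‖u‖ * ‖w‖ := by
            gcongr
            exact le_MDD t
        _ = _ := by ring) (fun t ht => by
      have h5 : (fun s => fderiv ℝ (K n) s w) =ᶠ[𝓝 t] fun _ => 0 := by
        have h6 : ∀ᶠ s : E n in 𝓝 t, 1 < ‖s‖ :=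
          (isOpen_lt continuous_const continuous_norm).mem_nhds ht
        filter_upwards [h6] with s hs
        rw [K_d_zero hs, zero_apply]
      rw [h5.fderiv_eq]
      simp) (Quad_smooth c L Q p).continuous hG hr hp
  rw [K_dd_quad c L hQ] at h4
  have h5 : Q u w = (r⁻¹ * r⁻¹) • ((r ^ 2) • Q u w) := by
    rw [smul_smul]
    have : r⁻¹ * r⁻¹ * r ^ 2 = 1 := by field_simp
    rw [this, one_smul]
  rw [h1]
  conv_lhs => rw [h5]
  rw [← smul_sub, norm_smul, Real.norm_of_nonneg (by positivity)]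
  calc _ ≤ (r⁻¹ * r⁻¹) * (‖u‖ * ‖w‖ * MDD n * (r ^ n)⁻¹ *
        ∫ s in closedBall p r, ‖G s - Quad c L Q p s‖) := by gcongr
    _ = _ := by
      rw [pow_add, mul_inv, pow_two, mul_inv]
      ring

end Pool.Agent.N824.C2
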