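import Pool.Agent.N824.C2.Moll

/-!
# Second order Taylor estimates
-/

set_option autoImplicit false
set_option maxSynthPendingDepth 3

open Set Filter Topology Metric Function MeasureTheory
open scoped Manifold ContDiff Convolution

set_option linter.unusedSectionVars false

noncomputable section

namespace Pool.Agent.N824.C2

open Pool.Agent.Y522 Pool.Agent.Y954.SH Pool.Agent.N824.CR Pool.Agent.N824.CN
open Pool.Agent.N824.CJ

variable {n : ℕ} {W : Type} [NormedAddCommGroup W] [NormedSpace ℝ W] [FiniteDimensional ℝ W]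

lemma to_two {F : Type} [NormedAddCommGroup F] [NormedSpace ℝ F] {f : E n → F} {x : E n}
    (hf : ContDiffAt ℝ ∞ f x) : ContDiffAt ℝ 2 f x := by
  exact_mod_cast contDiffAt_infty.1 hf 2

lemma symm_dd {f : E n → W} {x : E n} (hf : ContDiffAt ℝ 2 f x) (u v : E n) :
    fderiv ℝ (fderiv ℝ f) x u v = fderiv ℝ (fderiv ℝ f) x v u :=
  (hf.isSymmSndFDerivAt (by simp)).eq u v

/-- the second order Taylor estimate, uniformly near a point -/
theorem cubic_ball {f : E n → W} {p0 : E n} (hf : ContDiffAt ℝ ∞ f p0) :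
    ∃ ρ C : ℝ, 0 < ρ ∧ 0 ≤ C ∧
      (∀ p, ‖p - p0‖ < ρ → ContDiffAt ℝ 2 f p ∧ ‖fderiv ℝ f p‖ ≤ C ∧
        ‖fderiv ℝ (fderiv ℝ f) p‖ ≤ C) ∧
      ∀ p s, ‖p - p0‖ < ρ → ‖s - p0‖ < ρ →
        ‖f s - Quad (f p) (fderiv ℝ f p) (fderiv ℝ (fderiv ℝ f) p) p s‖ ≤ C * ‖s - p‖ ^ 3 := by
  have h1 : ContDiffAt ℝ ∞ (fderiv ℝ f) p0 := hf.fderiv_right (m := ∞) (by simp)
  have h2 : ContDiffAt ℝ ∞ (fderiv ℝ (fderiv ℝ f)) p0 := h1.fderiv_right (m := ∞) (by simp)
  have h3 : ContDiffAt ℝ 1 (fderiv ℝ (fderiv ℝ f)) p0 := h2.of_le (by simp)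
  obtain ⟨K, t, ht, hK⟩ := h3.exists_lipschitzOnWith
  have h4 : ∀ᶠ y in 𝓝 p0, ContDiffAt ℝ 2 f y :=
    (to_two hf).eventually (by simp)
  have h5 : ∀ᶠ y in 𝓝 p0, ‖fderiv ℝ f y‖ < ‖fderiv ℝ f p0‖ + 1 :=
    h1.continuousAt.norm.eventually_lt_const (by linarith)
  have h6 : ∀ᶠ y in 𝓝 p0, ‖fderiv ℝ (fderiv ℝ f) y‖ < ‖fderiv ℝ (fderiv ℝ f) p0‖ + 1 :=
    h2.continuousAt.norm.eventually_lt_const (by linarith)
  obtain ⟨ρ, hρ, hb⟩ := Metric.mem_nhds_iff.1
    (Filter.inter_mem ht (Filter.inter_mem h4 (Filter.inter_mem h5 h6)))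
  have hb' : ∀ p, ‖p - p0‖ < ρ → p ∈ t ∧ ContDiffAt ℝ 2 f p ∧
      ‖fderiv ℝ f p‖ < ‖fderiv ℝ f p0‖ + 1 ∧
      ‖fderiv ℝ (fderiv ℝ f) p‖ < ‖fderiv ℝ (fderiv ℝ f) p0‖ + 1 := by
    intro p hp
    exact hb (by rwa [mem_ball, dist_eq_norm])
  obtain ⟨C, hC⟩ : ∃ C : ℝ, C = ‖fderiv ℝ f p0‖ + 1 + (‖fderiv ℝ (fderiv ℝ f) p0‖ + 1) + K :=
    ⟨_, rfl⟩
  have hK0 : (0 : ℝ) ≤ K := K.2
  have := norm_nonneg (fderiv ℝ f p0)
  have := norm_nonneg (fderiv ℝ (fderiv ℝ f) p0)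
  have hKC : (K : ℝ) ≤ C := by rw [hC]; linarith
  refine ⟨ρ, C, hρ, by rw [hC]; positivity, fun p hp => ?_, fun p s hp hs => ?_⟩
  · obtain ⟨-, c1, c2, c3⟩ := hb' p hp
    exact ⟨c1, by rw [hC]; linarith, by rw [hC]; linarith⟩
  · obtain ⟨D, hD⟩ : ∃ D : ℝ, D = ‖s - p‖ := ⟨_, rfl⟩
    have hD0 : 0 ≤ D := by rw [hD]; exact norm_nonneg _
    obtain ⟨V, hV⟩ : ∃ V : Set (E n), V = ball p0 ρ ∩ closedBall p D := ⟨_, rfl⟩
    have hVc : Convex ℝ V := by
      rw [hV]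
      exact (convex_ball p0 ρ).inter (convex_closedBall p D)
    have hpV : p ∈ V := by
      rw [hV]
      refine ⟨by rwa [mem_ball, dist_eq_norm], ?_⟩
      rw [mem_closedBall, dist_self]
      exact hD0
    have hsV : s ∈ V := by
      rw [hV]
      refine ⟨by rwa [mem_ball, dist_eq_norm], ?_⟩
      rw [mem_closedBall, dist_eq_norm, hD]
    have hVm : ∀ y ∈ V, ‖y - p0‖ < ρ ∧ ‖y - p‖ ≤ D := by
      intro y hy
      rw [hV] at hy
      obtain ⟨k1, k2⟩ := hy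
      rw [mem_ball, dist_eq_norm] at k1
      rw [mem_closedBall, dist_eq_norm] at k2
      exact ⟨k1, k2⟩
    have hpt := (hb' p hp).1
    -- the derivative
    have e1 : ∀ y ∈ V, ‖fderiv ℝ f y - fderiv ℝ f p - fderiv ℝ (fderiv ℝ f) p (y - p)‖ ≤
        K * D * D := by
      intro y hy
      have k1 : ∀ z ∈ V, HasFDerivWithinAt (fderiv ℝ f) (fderiv ℝ (fderiv ℝ f) z) V z := by
        intro z hz
        exact (((hb' z (hVm z hz).1).2.1.fderiv_right (m := 1)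
          (by norm_num)).differentiableAt (by simp)).hasFDerivAt.hasFDerivWithinAt
      have k2 : ∀ z ∈ V, ‖fderiv ℝ (fderiv ℝ f) z - fderiv ℝ (fderiv ℝ f) p‖ ≤ K * D := by
        intro z hz
        have k3 := hK.dist_le_mul z (hb' z (hVm z hz).1).1 p hpt
        rw [dist_eq_norm, dist_eq_norm] at k3
        refine k3.trans ?_
        have := (hVm z hz).2
        gcongr
      refine (hVc.norm_image_sub_le_of_norm_hasFDerivWithin_le' k1 k2 hpV hy).trans ?_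
      have := (hVm y hy).2
      gcongr
    obtain ⟨g, hg⟩ : ∃ g : E n → W, g = fun y =>
      f y - Quad (f p) (fderiv ℝ f p) (fderiv ℝ (fderiv ℝ f) p) p y := ⟨_, rfl⟩
    have hgp : g p = 0 := by
      rw [hg]
      simp [Quad]
    have k1 : ∀ z ∈ V, HasFDerivWithinAt g (fderiv ℝ f z -
        fderiv ℝ (Quad (f p) (fderiv ℝ f p) (fderiv ℝ (fderiv ℝ f) p) p) z) V z := by
      intro z hz
      rw [hg]
      refine HasFDerivAt.hasFDerivWithinAt (HasFDerivAt.sub ?_ ?_)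
      · exact ((hb' z (hVm z hz).1).2.1.differentiableAt (by simp)).hasFDerivAt
      · exact ((Quad_smooth _ _ _ _).contDiffAt.differentiableAt (by simp)).hasFDerivAt
    have hsy := fun u v => symm_dd (hb' p hp).2.1 u v
    have k2 : ∀ z ∈ V, ‖fderiv ℝ f z -
        fderiv ℝ (Quad (f p) (fderiv ℝ f p) (fderiv ℝ (fderiv ℝ f) p) p) z‖ ≤ K * D * D := by
      intro z hz
      have k3 : fderiv ℝ f z -
          fderiv ℝ (Quad (f p) (fderiv ℝ f p) (fderiv ℝ (fderiv ℝ f) p) p) z =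
          fderiv ℝ f z - fderiv ℝ f p - fderiv ℝ (fderiv ℝ f) p (z - p) := by
        ext u
        rw [sub_apply, sub_apply, sub_apply, Quad_fderiv _ _ hsy]
        abel
      rw [k3]
      exact e1 z hz
    have k3 := hVc.norm_image_sub_le_of_norm_hasFDerivWithin_le k1 k2 hpV hsV
    rw [hgp, sub_zero, ← hD] at k3
    rw [hg] at k3
    refine k3.trans ?_
    rw [← hD]
    calc (K : ℝ) * D * D * D = K * D ^ 3 := by ring
      _ ≤ C * D ^ 3 := by gcongr

/-- the second derivative of a composition -/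
lemma dd_comp {m : E n → W} {φ : E n → E n} {p : E n} (hφ : ContDiffAt ℝ ∞ φ p)
    (hm : ContDiff ℝ ∞ m) (u v : E n) :
    fderiv ℝ (fderiv ℝ fun z => m (φ z)) p u v =
      fderiv ℝ (fderiv ℝ m) (φ p) (fderiv ℝ φ p u) (fderiv ℝ φ p v) +
        fderiv ℝ m (φ p) (fderiv ℝ (fderiv ℝ φ) p u v) := by
  have hev : ∀ᶠ y in 𝓝 p, ContDiffAt ℝ 1 φ y :=
    (hφ.of_le (m := 1) (by simp)).eventually (by simp)
  have h1 : (fun s => fderiv ℝ (fun z => m (φ z)) s v) =ᶠ[𝓝 p]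
      fun s => fderiv ℝ m (φ s) (fderiv ℝ φ s v) := by
    filter_upwards [hev] with y hy
    have h2 : fderiv ℝ (fun z => m (φ z)) y = (fderiv ℝ m (φ y)).comp (fderiv ℝ φ y) :=
      fderiv_comp y (hm.contDiffAt.differentiableAt (by simp)) (hy.differentiableAt (by simp))
    rw [h2, ContinuousLinearMap.comp_apply]
  have hH : ContDiffAt ℝ ∞ (fun z => m (φ z)) p := hm.contDiffAt.comp p hφ
  rw [← fd_fd hH, h1.fderiv_eq]
  have hm1 : ContDiff ℝ ∞ (fderiv ℝ m) := hm.fderiv_right (m := ∞) (by simp)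
  have h3 : HasFDerivAt (fun s => fderiv ℝ m (φ s))
      ((fderiv ℝ (fderiv ℝ m) (φ p)).comp (fderiv ℝ φ p)) p :=
    (hm1.contDiffAt.differentiableAt (by simp)).hasFDerivAt.comp p
      (hφ.differentiableAt (by simp)).hasFDerivAt
  have h4 : HasFDerivAt (fun s => fderiv ℝ φ s v) ((fderiv ℝ (fderiv ℝ φ) p).flip v) p := by
    have h5 : HasFDerivAt (fderiv ℝ φ) (fderiv ℝ (fderiv ℝ φ) p) p :=
      ((hφ.fderiv_right (m := ∞) (by simp)).differentiableAt (by simp)).hasFDerivAt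
    have h6 := h5.clm_apply (hasFDerivAt_const v p)
    have h7 : (fderiv ℝ φ p).comp (0 : E n →L[ℝ] E n) + (fderiv ℝ (fderiv ℝ φ) p).flip v =
        (fderiv ℝ (fderiv ℝ φ) p).flip v := by
      rw [ContinuousLinearMap.comp_zero, zero_add]
    rw [h7] at h6
    exact h6
  have h5 := h3.clm_apply h4
  rw [h5.fderiv]
  simp only [add_apply, ContinuousLinearMap.comp_apply, ContinuousLinearMap.flip_apply]
  abel

/-- the second derivative of a product -/
lemma dd_smul {χ : E n → ℝ} {g : E n → W} {p : E n} (hχ : ContDiffAt ℝ ∞ χ p)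
    (hg : ContDiffAt ℝ ∞ g p) (u v : E n) :
    fderiv ℝ (fderiv ℝ fun z => χ z • g z) p u v =
      χ p • fderiv ℝ (fderiv ℝ g) p u v + fderiv ℝ χ p u • fderiv ℝ g p v +
        fderiv ℝ χ p v • fderiv ℝ g p u + fderiv ℝ (fderiv ℝ χ) p u v • g p := by
  have hev : ∀ᶠ y in 𝓝 p, ContDiffAt ℝ 1 g y :=
    (hg.of_le (m := 1) (by simp)).eventually (by simp)
  have hev' : ∀ᶠ y in 𝓝 p, ContDiffAt ℝ 1 χ y :=
    (hχ.of_le (m := 1) (by simp)).eventually (by simp)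
  have h1 : (fun s => fderiv ℝ (fun z => χ z • g z) s v) =ᶠ[𝓝 p]
      fun s => χ s • fderiv ℝ g s v + fderiv ℝ χ s v • g s := by
    filter_upwards [hev, hev'] with y hy hy'
    have h2 := (hy'.differentiableAt (by simp)).hasFDerivAt.smul
      (hy.differentiableAt (by simp)).hasFDerivAt
    have h3 : HasFDerivAt (fun z => χ z • g z) _ y := h2
    rw [h3.fderiv]
    simp
  have hH : ContDiffAt ℝ ∞ (fun z => χ z • g z) p := hχ.smul hg
  rw [← fd_fd hH, h1.fderiv_eq]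
  have a1 : HasFDerivAt (fun s => fderiv ℝ g s v) ((fderiv ℝ (fderiv ℝ g) p).flip v) p := by
    have h5 : HasFDerivAt (fderiv ℝ g) (fderiv ℝ (fderiv ℝ g) p) p :=
      ((hg.fderiv_right (m := ∞) (by simp)).differentiableAt (by simp)).hasFDerivAt
    have h6 := h5.clm_apply (hasFDerivAt_const v p)
    have h7 : (fderiv ℝ g p).comp (0 : E n →L[ℝ] E n) + (fderiv ℝ (fderiv ℝ g) p).flip v =
        (fderiv ℝ (fderiv ℝ g) p).flip v := by
      rw [ContinuousLinearMap.comp_zero, zero_add]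
    rw [h7] at h6
    exact h6
  have a2 : HasFDerivAt (fun s => fderiv ℝ χ s v) ((fderiv ℝ (fderiv ℝ χ) p).flip v) p := by
    have h5 : HasFDerivAt (fderiv ℝ χ) (fderiv ℝ (fderiv ℝ χ) p) p :=
      ((hχ.fderiv_right (m := ∞) (by simp)).differentiableAt (by simp)).hasFDerivAt
    have h6 := h5.clm_apply (hasFDerivAt_const v p)
    have h7 : (fderiv ℝ χ p).comp (0 : E n →L[ℝ] E n) + (fderiv ℝ (fderiv ℝ χ) p).flip v =
        (fderiv ℝ (fderiv ℝ χ) p).flip v := by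
      rw [ContinuousLinearMap.comp_zero, zero_add]
    rw [h7] at h6
    exact h6
  have b1 := (hχ.differentiableAt (x := p) (by simp)).hasFDerivAt.smul a1
  have b2 := a2.smul (hg.differentiableAt (x := p) (by simp)).hasFDerivAt
  have h3 : HasFDerivAt (fun s => χ s • fderiv ℝ g s v + fderiv ℝ χ s v • g s) _ p := b1.add b2
  rw [h3.fderiv]
  simp only [add_apply, smul_apply, ContinuousLinearMap.smulRight_apply,
    ContinuousLinearMap.flip_apply]
  abel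

end Pool.Agent.N824.C2
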